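import Pool.Agent.Y81.SX.LocExp

set_option autoImplicit false

/-! Project SX (helper969): convergence of the arithmetic factor (statement S_AA). -/

namespace Pool.Agent.Y81.SX.AAP

open Finset Filter Topology MeasureTheory Complex
open Pool.Agent.Y969.SM
open Pool.Agent.Y81.SX.LocExp

noncomputable section

/-- second order bound for a finite product -/
lemma prod_second {ι : Type*} (s : Finset ι) (x : ι → ℝ) :
    |∏ i ∈ s, (1 + x i) - 1 - ∑ i ∈ s, x i| ≤ (∑ i ∈ s, |x i|) ^ 2 * Real.exp (∑ i ∈ s, |x i|) := by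
  classical
  induction s using Finset.induction_on with
  | empty => simp
  | insert a s ha ih =>
    rw [Finset.prod_insert ha, Finset.sum_insert ha, Finset.sum_insert ha]
    set P := ∏ i ∈ s, (1 + x i)
    set S := ∑ i ∈ s, x i
    set Q := ∑ i ∈ s, |x i| with hQ
    have hQ0 : 0 ≤ Q := Finset.sum_nonneg fun i _ => abs_nonneg _
    have h1 : |P - 1| ≤ Q * Real.exp Q := by
      have h2 := Finset.norm_prod_one_add_sub_one_le s x
      simp only [Real.norm_eq_abs] at h2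
      refine h2.trans ?_
      have h3 : 1 - Q ≤ Real.exp (-Q) := by
        have := Real.add_one_le_exp (-Q); linarith
      have h4 : Real.exp (-Q) * Real.exp Q = 1 := by rw [← Real.exp_add]; simp
      nlinarith [Real.exp_pos Q]
    have e : (1 + x a) * P - 1 - (x a + S) = (P - 1 - S) + x a * (P - 1) := by ring
    rw [e]
    refine (abs_add_le _ _).trans ?_
    rw [abs_mul]
    have h5 : |x a| * |P - 1| ≤ |x a| * (Q * Real.exp Q) := by gcongr
    have h6 : Real.exp Q ≤ Real.exp (|x a| + Q) := Real.exp_le_exp.2 (by linarith [abs_nonneg (x a)])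
    calc _ ≤ Q ^ 2 * Real.exp Q + |x a| * (Q * Real.exp Q) := add_le_add ih h5
      _ = (Q ^ 2 + |x a| * Q) * Real.exp Q := by ring
      _ ≤ (|x a| + Q) ^ 2 * Real.exp (|x a| + Q) := by
        refine mul_le_mul ?_ h6 (Real.exp_pos _).le (by positivity)
        nlinarith [abs_nonneg (x a), mul_nonneg (abs_nonneg (x a)) hQ0, sq_nonneg (|x a|)]

lemma norm_sq_factor {p : ℕ} (hp : p.Prime) (x : ℝ) :
    ‖1 - (p : ℂ) ^ (-(1 + I * x))‖ ^ 2 = 1 + (-(2 / (p : ℝ)) * Real.cos (x * Real.log p) + 1 / (p : ℝ) ^ 2) := by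
  have hp0 : (0 : ℝ) < p := by exact_mod_cast hp.pos
  have hpc : (p : ℂ) ≠ 0 := by exact_mod_cast hp.ne_zero
  have e : (p : ℂ) ^ (-(1 + I * x)) = ((1 / (p : ℝ) : ℝ) : ℂ) * cexp (((-(x * Real.log p) : ℝ) : ℂ) * I) := by
    have e1 : (1 / (p : ℝ) : ℝ) = Real.exp (-Real.log p) := by
      rw [Real.exp_neg, Real.exp_log hp0, one_div]
    rw [e1, Complex.ofReal_exp, Complex.cpow_def_of_ne_zero hpc, ← Complex.natCast_log, ← Complex.exp_add]
    congr 1
    push_cast
    ring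
  rw [e, Complex.sq_norm, Complex.normSq_apply]
  simp only [Complex.sub_re, Complex.sub_im, Complex.one_re, Complex.one_im, Complex.re_ofReal_mul,
    Complex.im_ofReal_mul, Complex.exp_ofReal_mul_I_re, Complex.exp_ofReal_mul_I_im, Real.cos_neg,
    Real.sin_neg]
  have h := Real.sin_sq_add_cos_sq (x * Real.log p)
  field_simp
  nlinarith [h]

/-- expansion of a product of factors -/
lemma prod_exp {ι : Type*} (s : Finset ι) (N : ℝ) (hN : (s.card : ℝ) ≤ N) (θ : ι → ℝ) {p : ℝ} (hp : 1 ≤ p) :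
    |∏ i ∈ s, (1 + (-(2 / p) * Real.cos (θ i) + 1 / p ^ 2)) - (1 + (-2 * ∑ i ∈ s, Real.cos (θ i)) / p)| ≤
      (9 * N ^ 2 * Real.exp (3 * N) + N) / p ^ 2 := by
  have hp0 : 0 < p := by linarith
  have hN0 : 0 ≤ N := le_trans (by positivity) hN
  have h := prod_second s (fun i => -(2 / p) * Real.cos (θ i) + 1 / p ^ 2)
  have h1 : ∀ i, |-(2 / p) * Real.cos (θ i) + 1 / p ^ 2| ≤ 3 / p := by
    intro i
    refine (abs_add_le _ _).trans ?_
    rw [abs_mul, abs_neg, abs_of_pos (by positivity : 0 < 2 / p), abs_of_pos (by positivity : 0 < 1 / p ^ 2)]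
    have h2 := Real.abs_cos_le_one (θ i)
    have h3 : 1 / p ^ 2 ≤ 1 / p := by
      apply one_div_le_one_div_of_le hp0
      nlinarith
    calc 2 / p * |Real.cos (θ i)| + 1 / p ^ 2 ≤ 2 / p * 1 + 1 / p := by gcongr
      _ = _ := by ring
  have h2 : ∑ i ∈ s, |-(2 / p) * Real.cos (θ i) + 1 / p ^ 2| ≤ 3 * N / p := by
    calc _ ≤ ∑ i ∈ s, 3 / p := Finset.sum_le_sum fun i _ => h1 i
      _ = s.card * (3 / p) := by rw [Finset.sum_const, nsmul_eq_mul]
      _ ≤ N * (3 / p) := by gcongr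
      _ = _ := by ring
  have h20 : 0 ≤ ∑ i ∈ s, |-(2 / p) * Real.cos (θ i) + 1 / p ^ 2| := Finset.sum_nonneg fun i _ => abs_nonneg _
  have h3 : 3 * N / p ≤ 3 * N := div_le_self (by positivity) hp
  have h4 : (∑ i ∈ s, |-(2 / p) * Real.cos (θ i) + 1 / p ^ 2|) ^ 2 *
      Real.exp (∑ i ∈ s, |-(2 / p) * Real.cos (θ i) + 1 / p ^ 2|) ≤ (3 * N / p) ^ 2 * Real.exp (3 * N) := by
    gcongr
    exact h2.trans h3
  have h5 : ∑ i ∈ s, (-(2 / p) * Real.cos (θ i) + 1 / p ^ 2) =
      (-2 * ∑ i ∈ s, Real.cos (θ i)) / p + s.card / p ^ 2 := by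
    rw [Finset.sum_add_distrib, ← Finset.mul_sum, Finset.sum_const, nsmul_eq_mul]
    ring
  rw [h5] at h
  have h6 : |(s.card : ℝ) / p ^ 2| ≤ N / p ^ 2 := by
    rw [abs_of_nonneg (by positivity)]
    gcongr
  set P := ∏ i ∈ s, (1 + (-(2 / p) * Real.cos (θ i) + 1 / p ^ 2))
  set Q := (-2 * ∑ i ∈ s, Real.cos (θ i)) / p
  have e : P - (1 + Q) = (P - 1 - (Q + s.card / p ^ 2)) + s.card / p ^ 2 := by ring
  rw [e]
  refine (abs_add_le _ _).trans ?_
  have h7 : (3 * N / p) ^ 2 * Real.exp (3 * N) = 9 * N ^ 2 * Real.exp (3 * N) / p ^ 2 := by ring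
  have h8 : (9 * N ^ 2 * Real.exp (3 * N) + N) / p ^ 2 = 9 * N ^ 2 * Real.exp (3 * N) / p ^ 2 + N / p ^ 2 := by
    ring
  rw [h8]
  exact add_le_add ((h.trans h4).trans h7.le) h6

/-- first order expansion of the zeta factors -/
theorem ep_exp (n : ℕ) : ∃ C : ℝ, 0 < C ∧ ∀ p : ℕ, p.Prime → ∀ c : Fin n → ℝ,
    |ep c p - (1 + -BB c p / p)| ≤ C / (p : ℝ) ^ 2 := by
  set N : ℝ := (n : ℝ) ^ 2 + n with hN
  set K : ℝ := 9 * N ^ 2 * Real.exp (3 * N) + N with hK
  have hN0 : 0 ≤ N := by positivity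
  have hK0 : 0 ≤ K := by positivity
  set K2 : ℝ := (2 * N) * (2 * N) + K * (1 + 2 * N) + K * (1 + 2 * N) + K * K with hK2
  have hK20 : 0 ≤ K2 := by positivity
  set K3 : ℝ := (4 * N) * (2 * N) + K2 * (1 + 2 * N) + K * (1 + 4 * N) + K2 * K with hK3
  refine ⟨K3 + 1, by positivity, ?_⟩
  intro p hp c
  have hp1 : (1 : ℝ) ≤ p := by exact_mod_cast hp.one_le
  have hp0 : (0 : ℝ) < p := by linarith
  have a1 := prod_exp (Finset.univ : Finset (Fin n)) N (by simp [hN])
    (fun j => c j * Real.log p) hp1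
  have a2 := prod_exp ((Finset.univ : Finset (Fin n)).sigma fun i => Finset.Ioi i) N (by
    rw [Finset.card_sigma]
    push_cast
    have : ∑ i : Fin n, ((Finset.Ioi i).card : ℝ) ≤ ∑ i : Fin n, (n : ℝ) := by
      refine Finset.sum_le_sum fun i _ => ?_
      have := Finset.card_le_univ (Finset.Ioi i)
      rw [Fintype.card_fin] at this
      exact_mod_cast this
    rw [Finset.sum_const, nsmul_eq_mul, Finset.card_univ, Fintype.card_fin] at this
    rw [hN]
    nlinarith [(Nat.cast_nonneg n : (0 : ℝ) ≤ n)])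
    (fun x => (c x.1 - c x.2) * Real.log p) hp1
  set s1 := ∑ j, Real.cos (c j * Real.log p) with hs1
  set s2 := ∑ x ∈ (Finset.univ : Finset (Fin n)).sigma fun i => Finset.Ioi i,
    Real.cos ((c x.1 - c x.2) * Real.log p) with hs2
  set P1 := ∏ j : Fin n, (1 + (-(2 / (p : ℝ)) * Real.cos (c j * Real.log p) + 1 / (p : ℝ) ^ 2)) with hP1
  set P2 := ∏ x ∈ (Finset.univ : Finset (Fin n)).sigma fun i => Finset.Ioi i,
    (1 + (-(2 / (p : ℝ)) * Real.cos ((c x.1 - c x.2) * Real.log p) + 1 / (p : ℝ) ^ 2)) with hP2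
  have e1 : ep c p = P1 * P1 * P2 := by
    unfold ep
    congr 1
    · rw [hP1, ← Finset.prod_mul_distrib]
      refine Finset.prod_congr rfl fun j _ => ?_
      rw [← norm_sq_factor hp]
      ring
    · rw [hP2, Finset.prod_sigma]
      refine Finset.prod_congr rfl fun i _ => Finset.prod_congr rfl fun j _ => ?_
      simp only
      rw [← norm_sq_factor hp]
      push_cast
      rfl
  have e2 : BB c p = 4 * s1 + 2 * s2 := by
    have e20 : 2 * s2 = ∑ i, ∑ j ∈ Finset.Ioi i, 2 * Real.cos ((c i - c j) * Real.log p) := by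
      rw [hs2, Finset.sum_sigma, Finset.mul_sum]
      refine Finset.sum_congr rfl fun i _ => ?_
      rw [Finset.mul_sum]
    rw [e20]
    rfl
  have b1 : |(-2 * s1)| ≤ 2 * N := by
    rw [abs_mul]
    have : |s1| ≤ n := sum_cos_le c
    have h2 : |(-2 : ℝ)| = 2 := by norm_num
    rw [h2, hN]
    nlinarith [sq_nonneg (n : ℝ)]
  have b2 : |(-2 * s2)| ≤ 2 * N := by
    rw [abs_mul]
    have h3 : |s2| ≤ (n : ℝ) ^ 2 := by
      have h4 : |s2| ≤ ∑ x ∈ (Finset.univ : Finset (Fin n)).sigma fun i => Finset.Ioi i, (1 : ℝ) :=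
        (Finset.abs_sum_le_sum_abs _ _).trans (Finset.sum_le_sum fun j _ => Real.abs_cos_le_one _)
      rw [Finset.sum_sigma] at h4
      have h5 : ∑ i : Fin n, ∑ _j ∈ Finset.Ioi i, (1 : ℝ) ≤ ∑ i : Fin n, (n : ℝ) := by
        refine Finset.sum_le_sum fun i _ => ?_
        rw [Finset.sum_const, nsmul_eq_mul, mul_one]
        have := Finset.card_le_univ (Finset.Ioi i)
        rw [Fintype.card_fin] at this
        exact_mod_cast this
      rw [Finset.sum_const, nsmul_eq_mul, Finset.card_univ, Fintype.card_fin] at h5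
      linarith [h4.trans h5]
    have h2 : |(-2 : ℝ)| = 2 := by norm_num
    rw [h2, hN]
    nlinarith [(Nat.cast_nonneg n : (0 : ℝ) ≤ n)]
  rw [← hK] at a1 a2
  have c1 := mul_exp hp1 a1 a1 b1 b1 hK0 hK0
  rw [← hK2] at c1
  have b3 : |(-2 * s1) + (-2 * s1)| ≤ 4 * N := by
    refine (abs_add_le _ _).trans ?_
    linarith
  have c2 := mul_exp hp1 c1 a2 b3 b2 hK20 hK0
  rw [e1]
  have e3 : (1 : ℝ) + -BB c p / p = 1 + ((-2 * s1) + (-2 * s1) + (-2 * s2)) / p := by
    rw [e2]; ring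
  rw [e3]
  rw [← hK3] at c2
  refine c2.trans ?_
  gcongr
  linarith

/-- the factors -/
theorem fac (h : S_LOC) (n : ℕ) : ∃ C : ℝ, 0 < C ∧ ∀ p : ℕ, p.Prime → ∀ c : Fin n → ℝ,
    |loc c p * ep c p - 1| ≤ C / (p : ℝ) ^ 2 := by
  obtain ⟨C1, hC1, h1⟩ := loc_exp h n
  obtain ⟨C2, hC2, h2⟩ := ep_exp n
  set B : ℝ := 4 * n + 2 * n ^ 2 with hB
  have hB0 : 0 ≤ B := by positivity
  refine ⟨B * B + C1 * (1 + B) + C2 * (1 + B) + C1 * C2, by positivity, ?_⟩
  intro p hp c
  have hp1 : (1 : ℝ) ≤ p := by exact_mod_cast hp.one_le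
  have hb : |-BB c p| ≤ B := by rw [abs_neg]; exact BB_abs c p
  have h3 := mul_exp hp1 (h1 p hp c) (h2 p hp c) (A := B) (B := B) (BB_abs c p) hb hC1.le hC2.le
  rw [add_neg_cancel, zero_div, add_zero] at h3
  exact h3

lemma loc_nonneg {n : ℕ} (c : Fin n → ℝ) {p : ℕ} (hp : p.Prime) : 0 ≤ loc c p := by
  have hp1 : (1 : ℝ) ≤ p := by exact_mod_cast hp.one_le
  unfold loc
  have h1 : 0 ≤ 1 - 1 / (p : ℝ) := by
    have : 1 / (p : ℝ) ≤ 1 := by rw [div_le_one (by linarith)]; exact hp1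
    linarith
  refine mul_nonneg (pow_nonneg h1 _) ?_
  refine intervalIntegral.integral_nonneg (by norm_num) fun θ _ => ?_
  refine one_div_nonneg.2 (mul_nonneg (by positivity) (Finset.prod_nonneg fun j _ => by positivity))

lemma ep_nonneg {n : ℕ} (c : Fin n → ℝ) (p : ℕ) : 0 ≤ ep c p := by
  unfold ep
  refine mul_nonneg (Finset.prod_nonneg fun j _ => by positivity)
    (Finset.prod_nonneg fun i _ => Finset.prod_nonneg fun j _ => by positivity)

/-- the factors indexed by all natural numbers -/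
def gg {n : ℕ} (c : Fin n → ℝ) (m : ℕ) : ℝ := if m.Prime then loc c m * ep c m else 1

lemma gg_prod {n : ℕ} (c : Fin n → ℝ) (N : ℕ) :
    ∏ p ∈ (Finset.range N).filter Nat.Prime, loc c p * ep c p = ∏ m ∈ Finset.range N, gg c m := by
  unfold gg
  rw [Finset.prod_filter]

lemma AA_eq {n : ℕ} (c : Fin n → ℝ) : AA c = ∏' m : ℕ, gg c m := by
  unfold AA
  have h := tprod_subtype {m : ℕ | m.Prime} (fun p : ℕ => loc c p * ep c p)
  have e : (∏' p : Nat.Primes, loc c p * ep c p) =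
      ∏' x : ({m : ℕ | m.Prime} : Set ℕ), loc c (x : ℕ) * ep c (x : ℕ) := rfl
  rw [e, h]
  refine tprod_congr fun m => ?_
  unfold gg
  by_cases hm : m.Prime
  · rw [if_pos hm, Set.mulIndicator_of_mem (by exact hm)]
  · rw [if_neg hm, Set.mulIndicator_of_notMem (by exact hm)]

theorem t_AA (h : S_LOC) : S_AA := by
  intro n
  obtain ⟨C, hC, hf⟩ := fac h n
  refine ⟨C + Real.exp (2 * C) + 2 * C * Real.exp (4 * C), by positivity, ?_⟩
  intro c
  have hg : ∀ m : ℕ, |gg c m - 1| ≤ C * ((m : ℝ) ^ 2)⁻¹ := by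
    intro m
    unfold gg
    split_ifs with hm
    · rw [← div_eq_mul_inv]; exact hf m hm c
    · rw [sub_self, abs_zero]; positivity
  have hg0 : ∀ m : ℕ, 0 ≤ gg c m := by
    intro m
    unfold gg
    split_ifs with hm
    · exact mul_nonneg (loc_nonneg c hm) (ep_nonneg c m)
    · norm_num
  have hsum : Summable fun m : ℕ => ‖gg c m - 1‖ := by
    refine Summable.of_nonneg_of_le (fun m => norm_nonneg _) (fun m => ?_)
      ((Real.summable_nat_pow_inv.2 (by norm_num : 1 < 2)).mul_left C)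
    rw [Real.norm_eq_abs]
    exact hg m
  have hmul : Multipliable (gg c) := by
    have := multipliable_one_add_of_summable hsum
    simpa using this
  have hlim : Tendsto (fun N => ∏ m ∈ Finset.range N, gg c m) atTop (𝓝 (AA c)) := by
    rw [AA_eq]
    exact hmul.hasProd.tendsto_prod_nat
  have hprod1 : ∀ s : Finset ℕ, |∏ m ∈ s, gg c m - 1| ≤ Real.exp (C * ∑ m ∈ s, ((m : ℝ) ^ 2)⁻¹) - 1 := by
    intro s
    have h1 := Finset.norm_prod_one_add_sub_one_le s (fun m => gg c m - 1)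
    simp only [add_sub_cancel, Real.norm_eq_abs] at h1
    refine h1.trans ?_
    have h2 : ∑ m ∈ s, |gg c m - 1| ≤ C * ∑ m ∈ s, ((m : ℝ) ^ 2)⁻¹ := by
      rw [Finset.mul_sum]
      exact Finset.sum_le_sum fun m _ => hg m
    have h3 := Real.exp_le_exp.2 h2
    linarith
  have hbd : ∀ N : ℕ, |∏ m ∈ Finset.range N, gg c m| ≤ Real.exp (2 * C) := by
    intro N
    have h1 := hprod1 (Finset.range N)
    have h2 : ∑ m ∈ Finset.range N, ((m : ℝ) ^ 2)⁻¹ ≤ 2 := by
      have h3 := sum_Ioo_inv_sq_le (α := ℝ) 0 N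
      have h4 : ∑ m ∈ Finset.range N, ((m : ℝ) ^ 2)⁻¹ = ∑ m ∈ Finset.Ioo 0 N, ((m : ℝ) ^ 2)⁻¹ := by
        symm
        refine Finset.sum_subset (fun m hm => ?_) (fun m hm hm' => ?_)
        · rw [Finset.mem_Ioo] at hm; rw [Finset.mem_range]; exact hm.2
        · rw [Finset.mem_range] at hm
          rw [Finset.mem_Ioo] at hm'
          have : m = 0 := by omega
          subst this; simp
      rw [h4]
      norm_num at h3
      exact h3
    have h5 : Real.exp (C * ∑ m ∈ Finset.range N, ((m : ℝ) ^ 2)⁻¹) ≤ Real.exp (2 * C) := by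
      apply Real.exp_le_exp.2
      nlinarith
    have h6 := abs_add_le (∏ m ∈ Finset.range N, gg c m - 1) 1
    rw [sub_add_cancel, abs_one] at h6
    linarith
  have hAA : |AA c| ≤ Real.exp (2 * C) :=
    le_of_tendsto hlim.abs (Eventually.of_forall hbd)
  have hE1 := Real.exp_pos (2 * C)
  have hE2 : 0 < 2 * C * Real.exp (4 * C) := by positivity
  refine ⟨fun p hp => ⟨mul_nonneg (loc_nonneg c hp) (ep_nonneg c p), ?_⟩, ?_, ?_, by linarith⟩
  · refine (hf p hp c).trans ?_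
    gcongr
    linarith
  · intro y hy
    rw [gg_prod]
    have hfl : 1 ≤ ⌊y⌋₊ := Nat.le_floor (by simpa using hy)
    have hy2 : y < (⌊y⌋₊ : ℝ) + 1 := Nat.lt_floor_add_one y
    have key : ∀ᶠ M in atTop, |∏ m ∈ Finset.range (⌊y⌋₊ + 1), gg c m - ∏ m ∈ Finset.range M, gg c m| ≤
        2 * C * Real.exp (4 * C) / y := by
      filter_upwards [eventually_ge_atTop (⌊y⌋₊ + 1)] with M hM
      rw [← Finset.prod_range_mul_prod_Ico _ hM]
      set P := ∏ m ∈ Finset.range (⌊y⌋₊ + 1), gg c m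
      set Q := ∏ m ∈ Finset.Ico (⌊y⌋₊ + 1) M, gg c m
      have e : P - P * Q = -(P * (Q - 1)) := by ring
      rw [e, abs_neg, abs_mul]
      have h1 := hprod1 (Finset.Ico (⌊y⌋₊ + 1) M)
      have h2 : ∑ m ∈ Finset.Ico (⌊y⌋₊ + 1) M, ((m : ℝ) ^ 2)⁻¹ ≤ 2 / y := by
        have h3 := sum_Ioo_inv_sq_le (α := ℝ) ⌊y⌋₊ M
        have h4 : Finset.Ico (⌊y⌋₊ + 1) M = Finset.Ioo ⌊y⌋₊ M := by
          ext m; simp [Finset.mem_Ico, Finset.mem_Ioo]
        rw [h4]
        refine h3.trans ?_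
        apply div_le_div_of_nonneg_left (by norm_num) (by linarith) hy2.le
      have h5 : Real.exp (C * ∑ m ∈ Finset.Ico (⌊y⌋₊ + 1) M, ((m : ℝ) ^ 2)⁻¹) - 1 ≤
          2 * C / y * Real.exp (2 * C) := by
        set t := C * ∑ m ∈ Finset.Ico (⌊y⌋₊ + 1) M, ((m : ℝ) ^ 2)⁻¹ with ht
        have ht0 : 0 ≤ t := by positivity
        have ht1 : t ≤ 2 * C / y := by
          calc t ≤ C * (2 / y) := by rw [ht]; gcongr
            _ = _ := by ring
        have ht2 : t ≤ 2 * C := ht1.trans (div_le_self (by positivity) hy)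
        have h6 : Real.exp t - 1 ≤ t * Real.exp t := by
          have h7 : 1 - t ≤ Real.exp (-t) := by
            have := Real.add_one_le_exp (-t); linarith
          have h8 : Real.exp (-t) * Real.exp t = 1 := by rw [← Real.exp_add]; simp
          nlinarith [Real.exp_pos t]
        calc Real.exp t - 1 ≤ t * Real.exp t := h6
          _ ≤ 2 * C / y * Real.exp (2 * C) := by
            have := Real.exp_le_exp.2 ht2
            gcongr
      calc |P| * |Q - 1| ≤ Real.exp (2 * C) * (2 * C / y * Real.exp (2 * C)) := by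
            refine mul_le_mul (hbd _) (h1.trans h5) (abs_nonneg _) (Real.exp_pos _).le
        _ = 2 * C * (Real.exp (2 * C) * Real.exp (2 * C)) / y := by ring
        _ = 2 * C * Real.exp (4 * C) / y := by
          rw [← Real.exp_add]
          congr 3
          ring
    have h9 : |∏ m ∈ Finset.range (⌊y⌋₊ + 1), gg c m - AA c| ≤ 2 * C * Real.exp (4 * C) / y :=
      le_of_tendsto (tendsto_const_nhds.sub hlim).abs key
    refine h9.trans ?_
    gcongr
    linarith
  · intro y _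
    rw [gg_prod]
    refine ⟨Finset.prod_nonneg fun m _ => hg0 m, ?_⟩
    have := (le_abs_self _).trans (hbd (⌊y⌋₊ + 1))
    linarith

end

end Pool.Agent.Y81.SX.AAP
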