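import Pool.Agent.Y969.SM.Stm3

set_option autoImplicit false

/-! Project SX (helper969): first order expansion of the local density `loc c p = 1 + BB c p / p + O(1/p²)`. -/

namespace Pool.Agent.Y81.SX.LocExp

open Finset Filter Topology MeasureTheory Complex
open Pool.Agent.Y969.SM

noncomputable section

/-- the coefficient of `1/p` -/
def BB {n : ℕ} (c : Fin n → ℝ) (p : ℕ) : ℝ :=
  4 * ∑ j, Real.cos (c j * Real.log p) + ∑ i, ∑ j ∈ Finset.Ioi i, 2 * Real.cos ((c i - c j) * Real.log p)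

lemma BB_abs {n : ℕ} (c : Fin n → ℝ) (p : ℕ) : |BB c p| ≤ 4 * n + 2 * n ^ 2 := by
  unfold BB
  have h1 : |4 * ∑ j, Real.cos (c j * Real.log p)| ≤ 4 * n := by
    rw [abs_mul, abs_of_pos (by norm_num : (0:ℝ) < 4)]
    have : |∑ j, Real.cos (c j * Real.log p)| ≤ ∑ j : Fin n, (1 : ℝ) :=
      (Finset.abs_sum_le_sum_abs _ _).trans (Finset.sum_le_sum fun j _ => Real.abs_cos_le_one _)
    simp at this
    linarith
  have h2 : |∑ i, ∑ j ∈ Finset.Ioi i, 2 * Real.cos ((c i - c j) * Real.log p)| ≤ 2 * n ^ 2 := by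
    have h3 : ∀ i : Fin n, |∑ j ∈ Finset.Ioi i, 2 * Real.cos ((c i - c j) * Real.log p)| ≤ 2 * n := by
      intro i
      have h4 : |∑ j ∈ Finset.Ioi i, 2 * Real.cos ((c i - c j) * Real.log p)| ≤ ∑ j ∈ Finset.Ioi i, (2 : ℝ) := by
        refine (Finset.abs_sum_le_sum_abs _ _).trans (Finset.sum_le_sum fun j _ => ?_)
        rw [abs_mul, abs_of_pos (by norm_num : (0:ℝ) < 2)]
        have := Real.abs_cos_le_one ((c i - c j) * Real.log p)
        linarith
      rw [Finset.sum_const, nsmul_eq_mul] at h4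
      have h5 : ((Finset.Ioi i).card : ℝ) ≤ n := by
        have := Finset.card_le_univ (Finset.Ioi i)
        rw [Fintype.card_fin] at this
        exact_mod_cast this
      linarith
    have h6 : |∑ i, ∑ j ∈ Finset.Ioi i, 2 * Real.cos ((c i - c j) * Real.log p)| ≤ ∑ i : Fin n, (2 * (n : ℝ)) :=
      (Finset.abs_sum_le_sum_abs _ _).trans (Finset.sum_le_sum fun i _ => h3 i)
    rw [Finset.sum_const, nsmul_eq_mul, Finset.card_univ, Fintype.card_fin] at h6
    linarith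
  exact (abs_add_le _ _).trans (add_le_add h1 h2)

/-- multiplication of expansions -/
lemma mul_exp {f g a b p A B C D : ℝ} (hp : 1 ≤ p) (hf : |f - (1 + a / p)| ≤ C / p ^ 2)
    (hg : |g - (1 + b / p)| ≤ D / p ^ 2) (ha : |a| ≤ A) (hb : |b| ≤ B) (hC : 0 ≤ C) (hD : 0 ≤ D) :
    |f * g - (1 + (a + b) / p)| ≤ (A * B + C * (1 + B) + D * (1 + A) + C * D) / p ^ 2 := by
  have hp0 : 0 < p := by linarith
  have hA : 0 ≤ A := (abs_nonneg _).trans ha
  have hB : 0 ≤ B := (abs_nonneg _).trans hb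
  set r := f - (1 + a / p) with hr
  set s := g - (1 + b / p) with hs
  have e : f * g - (1 + (a + b) / p) = (a * b) / p ^ 2 + r * (1 + b / p) + s * (1 + a / p) + r * s := by
    have e1 : f = 1 + a / p + r := by rw [hr]; ring
    have e2 : g = 1 + b / p + s := by rw [hs]; ring
    rw [e1, e2]
    field_simp
    ring
  have h1 : |(a * b) / p ^ 2| ≤ A * B / p ^ 2 := by
    rw [abs_div, abs_mul, abs_of_pos (by positivity : 0 < p ^ 2)]
    gcongr
  have hbp : |1 + b / p| ≤ 1 + B := by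
    refine (abs_add_le _ _).trans ?_
    rw [abs_one, abs_div, abs_of_pos hp0]
    have : |b| / p ≤ B := by
      rw [div_le_iff₀ hp0]
      nlinarith
    linarith
  have hap : |1 + a / p| ≤ 1 + A := by
    refine (abs_add_le _ _).trans ?_
    rw [abs_one, abs_div, abs_of_pos hp0]
    have : |a| / p ≤ A := by
      rw [div_le_iff₀ hp0]
      nlinarith
    linarith
  have h2 : |r * (1 + b / p)| ≤ C * (1 + B) / p ^ 2 := by
    rw [abs_mul]
    calc |r| * |1 + b / p| ≤ (C / p ^ 2) * (1 + B) := by gcongr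
      _ = _ := by ring
  have h3 : |s * (1 + a / p)| ≤ D * (1 + A) / p ^ 2 := by
    rw [abs_mul]
    calc |s| * |1 + a / p| ≤ (D / p ^ 2) * (1 + A) := by gcongr
      _ = _ := by ring
  have h4 : |r * s| ≤ C * D / p ^ 2 := by
    rw [abs_mul]
    have h5 : D / p ^ 2 ≤ D := div_le_self hD (one_le_pow₀ hp)
    calc |r| * |s| ≤ (C / p ^ 2) * D := by gcongr; exact hg.trans h5
      _ = _ := by ring
  rw [e]
  refine (abs_add_le _ _).trans ?_
  refine (add_le_add ((abs_add_le _ _).trans (add_le_add (abs_add_le _ _) le_rfl)) le_rfl).trans ?_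
  have e5 : (A * B + C * (1 + B) + D * (1 + A) + C * D) / p ^ 2 =
      A * B / p ^ 2 + C * (1 + B) / p ^ 2 + D * (1 + A) / p ^ 2 + C * D / p ^ 2 := by ring
  rw [e5]
  linarith

/-! ### small indices -/

lemma parity {n : ℕ} (s : Finset (Fin n)) (k : Fin n → ℤ) :
    Even (((∑ j ∈ s, (k j).natAbs : ℕ) : ℤ) - ∑ j ∈ s, k j) := by
  push_cast
  rw [← Finset.sum_sub_distrib]
  induction s using Finset.induction_on with
  | empty => simp
  | insert a s ha ih =>
    rw [Finset.sum_insert ha]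
    refine Even.add ?_ ih
    rcases abs_cases (k a) with ⟨h, _⟩ | ⟨h, _⟩
    · rw [h]; simp
    · rw [h]; exact ⟨-(k a), by ring⟩

lemma abs_sum_le {n : ℕ} (s : Finset (Fin n)) (k : Fin n → ℤ) :
    (∑ j ∈ s, k j).natAbs ≤ ∑ j ∈ s, (k j).natAbs := by
  induction s using Finset.induction_on with
  | empty => simp
  | insert a s ha ih =>
    rw [Finset.sum_insert ha, Finset.sum_insert ha]
    exact (Int.natAbs_add_le _ _).trans (by omega)

/-- the classification of the small indices -/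
lemma classify {n : ℕ} (k : Fin n → ℤ) (h : kx k ≤ 3) : k = 0 ∨ (∃ j, k = Pi.single j 1) ∨
    (∃ j, k = Pi.single j (-1)) ∨ ∃ i j, j ≠ i ∧ k = Pi.single i 1 - Pi.single j 1 := by
  classical
  by_cases h0 : k = 0
  · exact Or.inl h0
  right
  obtain ⟨j, hj⟩ : ∃ j, k j ≠ 0 := by
    by_contra hc
    push Not at hc
    exact h0 (funext hc)
  have e1 : ∑ i, (k i).natAbs = (k j).natAbs + ∑ i ∈ Finset.univ.erase j, (k i).natAbs :=
    (Finset.add_sum_erase _ _ (Finset.mem_univ j)).symm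
  have e2 : ∑ i, k i = k j + ∑ i ∈ Finset.univ.erase j, k i :=
    (Finset.add_sum_erase _ _ (Finset.mem_univ j)).symm
  unfold kx at h
  by_cases h1 : ∀ i, i ≠ j → k i = 0
  · have e3 : ∑ i ∈ Finset.univ.erase j, k i = 0 :=
      Finset.sum_eq_zero fun i hi => h1 i (Finset.ne_of_mem_erase hi)
    have hk : k = Pi.single j (k j) := by
      funext i
      by_cases hij : i = j
      · subst hij; simp
      · rw [h1 i hij, Pi.single_eq_of_ne hij]
    rw [e1, e2, e3] at h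
    have h2 : k j = 1 ∨ k j = -1 := by omega
    rcases h2 with h2 | h2
    · left; exact ⟨j, by rw [hk, h2]⟩
    · right; left; exact ⟨j, by rw [hk, h2]⟩
  · push Not at h1
    obtain ⟨i, hij, hi⟩ := h1
    have hi' : i ∈ Finset.univ.erase j := Finset.mem_erase.2 ⟨hij, Finset.mem_univ i⟩
    have e3 : ∑ l ∈ Finset.univ.erase j, (k l).natAbs =
        (k i).natAbs + ∑ l ∈ (Finset.univ.erase j).erase i, (k l).natAbs :=
      (Finset.add_sum_erase _ _ hi').symm
    have e4 : ∑ l ∈ Finset.univ.erase j, k l = k i + ∑ l ∈ (Finset.univ.erase j).erase i, k l :=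
      (Finset.add_sum_erase _ _ hi').symm
    have p1 := parity ((Finset.univ.erase j).erase i) k
    have p2 := abs_sum_le ((Finset.univ.erase j).erase i) k
    obtain ⟨m, hm⟩ := p1
    rw [e1, e2, e3, e4] at h
    have hz : ∑ l ∈ (Finset.univ.erase j).erase i, (k l).natAbs = 0 := by omega
    have hz' : ∀ l, l ≠ j → l ≠ i → k l = 0 := by
      intro l hl1 hl2
      have := (Finset.sum_eq_zero_iff.1 hz) l
        (Finset.mem_erase.2 ⟨hl2, Finset.mem_erase.2 ⟨hl1, Finset.mem_univ l⟩⟩)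
      omega
    have h2 : (k j = 1 ∧ k i = -1) ∨ (k j = -1 ∧ k i = 1) := by omega
    right; right
    rcases h2 with ⟨a1, a2⟩ | ⟨a1, a2⟩
    · refine ⟨j, i, hij, ?_⟩
      funext l
      by_cases hl1 : l = j
      · subst hl1
        simp [a1, Pi.single_eq_of_ne (Ne.symm hij)]
      · by_cases hl2 : l = i
        · subst hl2
          simp [a2, Pi.single_eq_of_ne hij]
        · rw [hz' l hl1 hl2]
          simp [Pi.single_eq_of_ne hl1, Pi.single_eq_of_ne hl2]
    · refine ⟨i, j, Ne.symm hij, ?_⟩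
      funext l
      by_cases hl1 : l = j
      · subst hl1
        simp [a1, Pi.single_eq_of_ne (Ne.symm hij)]
      · by_cases hl2 : l = i
        · subst hl2
          simp [a2, Pi.single_eq_of_ne hij]
        · rw [hz' l hl1 hl2]
          simp [Pi.single_eq_of_ne hl1, Pi.single_eq_of_ne hl2]

/-- the indices with `kx ≤ 2` -/
def S1 (n : ℕ) : Finset (Fin n → ℤ) := Finset.univ.image fun j => Pi.single j 1
def S2 (n : ℕ) : Finset (Fin n → ℤ) := Finset.univ.image fun j => Pi.single j (-1)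
def S3 (n : ℕ) : Finset (Fin n → ℤ) :=
  ((Finset.univ : Finset (Fin n)).sigma fun i => {i}ᶜ).image fun x => Pi.single x.1 1 - Pi.single x.2 1
def SS4 (n : ℕ) : Finset (Fin n → ℤ) := {0} ∪ (S1 n ∪ (S2 n ∪ S3 n))

lemma not_mem {n : ℕ} {k : Fin n → ℤ} (h : k ∉ SS4 n) : 4 ≤ kx k := by
  by_contra hc
  apply h
  unfold SS4 S1 S2 S3
  rcases classify k (by omega) with h | ⟨j, h⟩ | ⟨j, h⟩ | ⟨i, j, hij, h⟩
  · simp [h]
  · simp only [Finset.mem_union]
    right; left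
    exact Finset.mem_image.2 ⟨j, Finset.mem_univ j, h.symm⟩
  · simp only [Finset.mem_union]
    right; right; left
    exact Finset.mem_image.2 ⟨j, Finset.mem_univ j, h.symm⟩
  · simp only [Finset.mem_union]
    right; right; right
    exact Finset.mem_image.2 ⟨⟨i, j⟩, by simp [hij], h.symm⟩

lemma sum_S1 {n : ℕ} {k : Fin n → ℤ} (h : k ∈ S1 n) : ∑ j, k j = 1 := by
  obtain ⟨j, _, rfl⟩ := Finset.mem_image.1 h
  simp

lemma sum_S2 {n : ℕ} {k : Fin n → ℤ} (h : k ∈ S2 n) : ∑ j, k j = -1 := by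
  obtain ⟨j, _, rfl⟩ := Finset.mem_image.1 h
  simp

lemma sum_S3 {n : ℕ} {k : Fin n → ℤ} (h : k ∈ S3 n) : ∑ j, k j = 0 := by
  obtain ⟨⟨i, j⟩, _, rfl⟩ := Finset.mem_image.1 h
  simp

lemma S3_ne {n : ℕ} {k : Fin n → ℤ} (h : k ∈ S3 n) : k ≠ 0 := by
  obtain ⟨⟨i, j⟩, hij, rfl⟩ := Finset.mem_image.1 h
  have hij' : j ≠ i := by simpa using hij
  intro h0
  have := congrFun h0 i
  simp [Pi.single_eq_of_ne (Ne.symm hij')] at this

lemma S3_inj {n : ℕ} : Set.InjOn (fun x : (_ : Fin n) × Fin n => (Pi.single x.1 1 - Pi.single x.2 1 : Fin n → ℤ))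
    ((Finset.univ : Finset (Fin n)).sigma fun i => ({i}ᶜ : Finset (Fin n)) : Set _) := by
  rintro ⟨i, j⟩ hij ⟨i', j'⟩ hij' h
  have h1 : j ≠ i := by simpa using hij
  have h2 : j' ≠ i' := by simpa using hij'
  simp only at h
  have hi := congrFun h i
  have hj := congrFun h j
  have e1 : i = i' := by
    by_contra hc
    rw [Pi.sub_apply, Pi.sub_apply, Pi.single_eq_same, Pi.single_eq_of_ne (Ne.symm h1),
      Pi.single_eq_of_ne hc] at hi
    by_cases hc2 : i = j'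
    · subst hc2; simp at hi
    · rw [Pi.single_eq_of_ne hc2] at hi; simp at hi
  have e2 : j = j' := by
    by_contra hc
    rw [Pi.sub_apply, Pi.sub_apply, Pi.single_eq_same, Pi.single_eq_of_ne h1,
      Pi.single_eq_of_ne hc] at hj
    by_cases hc2 : j = i'
    · subst hc2; simp at hj
    · rw [Pi.single_eq_of_ne hc2] at hj; simp at hj
  subst e1; subst e2; rfl

lemma sum_SS4 {n : ℕ} (F : (Fin n → ℤ) → ℂ) : ∑ k ∈ SS4 n, F k = F 0 + (∑ j, F (Pi.single j 1) +
    (∑ j, F (Pi.single j (-1)) + ∑ i, ∑ j ∈ ({i}ᶜ : Finset (Fin n)), F (Pi.single i 1 - Pi.single j 1))) := by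
  unfold SS4
  rw [Finset.sum_union, Finset.sum_union, Finset.sum_union, Finset.sum_singleton]
  · congr 1
    congr 1
    · unfold S1
      rw [Finset.sum_image]
      intro a _ b _ h
      by_contra hc
      have := congrFun h a
      simp [Pi.single_eq_of_ne hc] at this
    congr 1
    · unfold S2
      rw [Finset.sum_image]
      intro a _ b _ h
      by_contra hc
      have := congrFun h a
      simp [Pi.single_eq_of_ne hc] at this
    · unfold S3
      rw [Finset.sum_image S3_inj, Finset.sum_sigma']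
  · rw [Finset.disjoint_left]
    intro k h1 h2
    have a := sum_S2 h1
    have b := sum_S3 h2
    omega
  · rw [Finset.disjoint_left]
    intro k h1 h2
    have a := sum_S1 h1
    rcases Finset.mem_union.1 h2 with h2 | h2
    · have b := sum_S2 h2; omega
    · have b := sum_S3 h2; omega
  · rw [Finset.disjoint_left]
    intro k h1 h2
    rw [Finset.mem_singleton] at h1
    subst h1
    rcases Finset.mem_union.1 h2 with h2 | h2
    · have b := sum_S1 h2; simp at b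
    rcases Finset.mem_union.1 h2 with h2 | h2
    · have b := sum_S2 h2; simp at b
    · exact S3_ne h2 rfl

/-- the size of the coefficients -/
lemma lc_tail {n p : ℕ} (hp : p.Prime) {k : Fin n → ℤ} (hk : 4 ≤ kx k) :
    lc p k ≤ 12 * lc 2 k / (p : ℝ) ^ 2 := by
  have hp2 : (2 : ℝ) ≤ p := by exact_mod_cast hp.two_le
  have hp0 : (0 : ℝ) < p := by linarith
  unfold lc
  set a : ℝ := ((∑ j, k j).natAbs : ℝ) with ha
  have ha0 : 0 ≤ a := by positivity
  have hkx : (4 : ℝ) ≤ kx k := by exact_mod_cast hk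
  have h1 : (p : ℝ) ^ (-((kx k : ℝ) / 2)) = (p : ℝ) ^ (-(((kx k : ℝ) - 4) / 2)) / (p : ℝ) ^ 2 := by
    rw [← Real.rpow_natCast (p : ℝ) 2, ← Real.rpow_sub hp0]
    congr 1
    push_cast
    ring
  have h2 : (p : ℝ) ^ (-(((kx k : ℝ) - 4) / 2)) ≤ (2 : ℝ) ^ (-(((kx k : ℝ) - 4) / 2)) :=
    Real.rpow_le_rpow_of_nonpos (by norm_num) hp2 (by linarith)
  have h3 : (2 : ℝ) ^ (-(((kx k : ℝ) - 4) / 2)) = 4 * (2 : ℝ) ^ (-((kx k : ℝ) / 2)) := by
    have : (4 : ℝ) = (2 : ℝ) ^ (2 : ℝ) := by norm_num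
    rw [this, ← Real.rpow_add (by norm_num)]
    congr 1
    norm_num
    ring
  have h4 : 1 + a * (((p:ℝ) - 1) / ((p:ℝ) + 1)) ≤ 1 + a := by
    have : ((p:ℝ) - 1) / ((p:ℝ) + 1) ≤ 1 := by rw [div_le_one (by linarith)]; linarith
    nlinarith
  have h5 : 1 + a ≤ 3 * (1 + a * ((((2:ℕ):ℝ) - 1) / (((2:ℕ):ℝ) + 1))) := by
    push_cast
    norm_num
    linarith
  have h6 : (0 : ℝ) < (2 : ℝ) ^ (-((kx k : ℝ) / 2)) := by positivity
  have h7 : (0 : ℝ) ≤ ((p:ℝ) - 1) / ((p:ℝ) + 1) := div_nonneg (by linarith) (by linarith)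
  calc (p : ℝ) ^ (-((kx k : ℝ) / 2)) * (1 + a * (((p:ℝ) - 1) / ((p:ℝ) + 1)))
      ≤ (4 * (2 : ℝ) ^ (-((kx k : ℝ) / 2)) / (p : ℝ) ^ 2) * (3 * (1 + a * ((((2:ℕ):ℝ) - 1) / (((2:ℕ):ℝ) + 1)))) := by
        refine mul_le_mul ?_ (h4.trans h5) (by positivity) (by positivity)
        rw [h1]
        exact div_le_div_of_nonneg_right (h2.trans h3.le) (by positivity)
    _ = 12 * (((2:ℕ):ℝ) ^ (-((kx k : ℝ) / 2)) * (1 + a * ((((2:ℕ):ℝ) - 1) / (((2:ℕ):ℝ) + 1)))) / (p : ℝ) ^ 2 := by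
        push_cast; ring

lemma lc_nonneg {n p : ℕ} (hp : 1 ≤ p) (k : Fin n → ℤ) : 0 ≤ lc p k := by
  have hp1 : (1 : ℝ) ≤ p := by exact_mod_cast hp
  have h7 : (0 : ℝ) ≤ ((p:ℝ) - 1) / ((p:ℝ) + 1) := div_nonneg (by linarith) (by linarith)
  unfold lc
  positivity

/-- the exponentials of the Fourier series -/
def EE {n : ℕ} (c : Fin n → ℝ) (p : ℕ) (k : Fin n → ℤ) : ℂ :=
  ∏ j, cexp (-(I * ((c j * Real.log p * k j : ℝ) : ℂ)))

lemma EE_eq {n : ℕ} (c : Fin n → ℝ) (p : ℕ) (k : Fin n → ℤ) :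
    EE c p k = cexp (((-(∑ j, c j * Real.log p * k j) : ℝ) : ℂ) * I) := by
  unfold EE
  rw [← Complex.exp_sum]
  congr 1
  push_cast
  rw [Finset.sum_neg_distrib, ← Finset.mul_sum]
  ring

lemma EE_norm {n : ℕ} (c : Fin n → ℝ) (p : ℕ) (k : Fin n → ℤ) : ‖EE c p k‖ = 1 := by
  rw [EE_eq, Complex.norm_exp_ofReal_mul_I]

lemma EE_zero {n : ℕ} (c : Fin n → ℝ) (p : ℕ) : EE c p 0 = 1 := by
  rw [EE_eq]; simp

lemma EE_single {n : ℕ} (c : Fin n → ℝ) (p : ℕ) (j : Fin n) :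
    EE c p (Pi.single j 1) = cexp (((-(c j * Real.log p) : ℝ) : ℂ) * I) := by
  rw [EE_eq]
  have : ∑ i, c i * Real.log p * ((Pi.single j 1 : Fin n → ℤ) i : ℝ) = c j * Real.log p := by
    rw [Finset.sum_eq_single j]
    · simp
    · intro b _ hb; simp [Pi.single_eq_of_ne hb]
    · simp
  rw [this]

lemma EE_single' {n : ℕ} (c : Fin n → ℝ) (p : ℕ) (j : Fin n) :
    EE c p (Pi.single j (-1)) = cexp (((c j * Real.log p : ℝ) : ℂ) * I) := by
  rw [EE_eq]
  have : ∑ i, c i * Real.log p * ((Pi.single j (-1) : Fin n → ℤ) i : ℝ) = -(c j * Real.log p) := by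
    rw [Finset.sum_eq_single j]
    · simp
    · intro b _ hb; simp [Pi.single_eq_of_ne hb]
    · simp
  rw [this, neg_neg]

lemma EE_diff {n : ℕ} (c : Fin n → ℝ) (p : ℕ) (i j : Fin n) :
    EE c p (Pi.single i 1 - Pi.single j 1) = cexp (((-((c i - c j) * Real.log p) : ℝ) : ℂ) * I) := by
  rw [EE_eq]
  have h : ∀ l : Fin n, ∑ i, c i * Real.log p * ((Pi.single l 1 : Fin n → ℤ) i : ℝ) = c l * Real.log p := by
    intro l
    rw [Finset.sum_eq_single l]
    · simp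
    · intro b _ hb; simp [Pi.single_eq_of_ne hb]
    · simp
  have : ∑ l, c l * Real.log p * (((Pi.single i 1 - Pi.single j 1 : Fin n → ℤ) l : ℤ) : ℝ) =
      (c i - c j) * Real.log p := by
    rw [sub_mul, ← h i, ← h j, ← Finset.sum_sub_distrib]
    refine Finset.sum_congr rfl fun l _ => ?_
    rw [Pi.sub_apply]
    push_cast
    ring
  rw [this]

lemma lc_zero {n p : ℕ} : lc p (0 : Fin n → ℤ) = 1 := by
  unfold lc kx
  simp

lemma kx_single {n : ℕ} (j : Fin n) : kx (Pi.single j 1 : Fin n → ℤ) = 2 := by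
  unfold kx
  have h1 : ∑ i, ((Pi.single j 1 : Fin n → ℤ) i).natAbs = 1 := by
    rw [Finset.sum_eq_single j]
    · simp
    · intro b _ hb; simp [Pi.single_eq_of_ne hb]
    · simp
  have h2 : ∑ i, (Pi.single j 1 : Fin n → ℤ) i = 1 := by simp
  rw [h1, h2]
  rfl

lemma kx_single' {n : ℕ} (j : Fin n) : kx (Pi.single j (-1) : Fin n → ℤ) = 2 := by
  unfold kx
  have h1 : ∑ i, ((Pi.single j (-1) : Fin n → ℤ) i).natAbs = 1 := by
    rw [Finset.sum_eq_single j]
    · simp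
    · intro b _ hb; simp [Pi.single_eq_of_ne hb]
    · simp
  have h2 : ∑ i, (Pi.single j (-1) : Fin n → ℤ) i = -1 := by simp
  rw [h1, h2]
  rfl

lemma kx_diff {n : ℕ} {i j : Fin n} (h : j ≠ i) :
    kx (Pi.single i 1 - Pi.single j 1 : Fin n → ℤ) = 2 := by
  unfold kx
  have h2 : ∑ l, (Pi.single i 1 - Pi.single j 1 : Fin n → ℤ) l = 0 := by simp
  have h1 : ∑ l, ((Pi.single i 1 - Pi.single j 1 : Fin n → ℤ) l).natAbs = 2 := by
    have e : ∀ l, ((Pi.single i 1 - Pi.single j 1 : Fin n → ℤ) l).natAbs =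
        (if l = i then 1 else 0) + if l = j then 1 else 0 := by
      intro l
      rw [Pi.sub_apply]
      by_cases h1 : l = i
      · subst h1
        simp [Ne.symm h]
      · by_cases h2 : l = j
        · subst h2
          simp [h1]
        · simp [h1, h2]
    simp_rw [e, Finset.sum_add_distrib]
    simp
  rw [h1, h2]
  rfl

lemma rpow_kx {p : ℕ} : (p : ℝ) ^ (-(((2 : ℕ) : ℝ) / 2)) = 1 / (p : ℝ) := by
  rw [show -(((2 : ℕ) : ℝ) / 2) = (-1 : ℝ) by norm_num, Real.rpow_neg_one, one_div]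

lemma lc_single {n p : ℕ} (hp : p.Prime) (j : Fin n) :
    lc p (Pi.single j 1 : Fin n → ℤ) = 2 / ((p : ℝ) + 1) := by
  have hp0 : (0 : ℝ) < p := by exact_mod_cast hp.pos
  unfold lc
  rw [kx_single, rpow_kx]
  have h2 : ∑ i, (Pi.single j 1 : Fin n → ℤ) i = 1 := by simp
  rw [h2]
  simp only [Int.natAbs_one, Nat.cast_one, one_mul]
  field_simp
  ring

lemma lc_single' {n p : ℕ} (hp : p.Prime) (j : Fin n) :
    lc p (Pi.single j (-1) : Fin n → ℤ) = 2 / ((p : ℝ) + 1) := by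
  have hp0 : (0 : ℝ) < p := by exact_mod_cast hp.pos
  unfold lc
  rw [kx_single', rpow_kx]
  have h2 : ∑ i, (Pi.single j (-1) : Fin n → ℤ) i = -1 := by simp
  rw [h2]
  simp only [Int.natAbs_neg, Int.natAbs_one, Nat.cast_one, one_mul]
  field_simp
  ring

lemma lc_diff {n p : ℕ} {i j : Fin n} (h : j ≠ i) :
    lc p (Pi.single i 1 - Pi.single j 1 : Fin n → ℤ) = 1 / (p : ℝ) := by
  unfold lc
  rw [kx_diff h, rpow_kx]
  have h2 : ∑ l, (Pi.single i 1 - Pi.single j 1 : Fin n → ℤ) l = 0 := by simp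
  rw [h2]
  simp

lemma two_cos (x : ℝ) : cexp (((-x : ℝ) : ℂ) * I) + cexp (((x : ℝ) : ℂ) * I) = ((2 * Real.cos x : ℝ) : ℂ) := by
  rw [Complex.exp_mul_I, Complex.exp_mul_I]
  push_cast
  rw [Complex.cos_neg, Complex.sin_neg]
  ring

/-- the finite sum -/
lemma fin_sum {n p : ℕ} (hp : p.Prime) (c : Fin n → ℝ) :
    ∑ k ∈ SS4 n, (lc p k : ℂ) * EE c p k = ((1 + 4 / ((p : ℝ) + 1) * ∑ j, Real.cos (c j * Real.log p) +
      1 / (p : ℝ) * ∑ i, ∑ j ∈ Finset.Ioi i, 2 * Real.cos ((c i - c j) * Real.log p) : ℝ) : ℂ) := by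
  rw [sum_SS4]
  simp_rw [lc_single hp, lc_single' hp, EE_single, EE_single', EE_zero, lc_zero]
  have e1 : ∑ i, ∑ j ∈ ({i}ᶜ : Finset (Fin n)), ((lc p (Pi.single i 1 - Pi.single j 1 : Fin n → ℤ) : ℝ) : ℂ) *
      EE c p (Pi.single i 1 - Pi.single j 1) = ∑ i, ∑ j ∈ ({i}ᶜ : Finset (Fin n)), ((1 / (p : ℝ) : ℝ) : ℂ) *
      cexp (((-((c i - c j) * Real.log p) : ℝ) : ℂ) * I) := by
    refine Finset.sum_congr rfl fun i _ => Finset.sum_congr rfl fun j hj => ?_
    have hj' : j ≠ i := by simpa using hj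
    rw [lc_diff hj', EE_diff]
  rw [e1, ← Finset.sum_sum_Ioi_add_eq_sum_sum_off_diag (fun j i => ((1 / (p : ℝ) : ℝ) : ℂ) *
      cexp (((-((c i - c j) * Real.log p) : ℝ) : ℂ) * I))]
  have e2 : ∀ i j : Fin n, ((1 / (p : ℝ) : ℝ) : ℂ) * cexp (((-((c i - c j) * Real.log p) : ℝ) : ℂ) * I) +
      ((1 / (p : ℝ) : ℝ) : ℂ) * cexp (((-((c j - c i) * Real.log p) : ℝ) : ℂ) * I) =
      ((1 / (p : ℝ) * (2 * Real.cos ((c i - c j) * Real.log p)) : ℝ) : ℂ) := by
    intro i j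
    have : -((c j - c i) * Real.log p) = (c i - c j) * Real.log p := by ring
    rw [this, ← mul_add, two_cos]
    push_cast; ring
  simp_rw [e2]
  rw [← add_assoc (∑ j, _) (∑ j, _) _, ← Finset.sum_add_distrib]
  have e3 : ∀ j : Fin n, ((2 / ((p : ℝ) + 1) : ℝ) : ℂ) * cexp (((-(c j * Real.log p) : ℝ) : ℂ) * I) +
      ((2 / ((p : ℝ) + 1) : ℝ) : ℂ) * cexp (((c j * Real.log p : ℝ) : ℂ) * I) =
      ((2 / ((p : ℝ) + 1) * (2 * Real.cos (c j * Real.log p)) : ℝ) : ℂ) := by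
    intro j
    rw [← mul_add, two_cos]
    push_cast; ring
  simp_rw [e3]
  simp_rw [← Complex.ofReal_sum]
  simp_rw [← Finset.mul_sum]
  push_cast
  ring

lemma sum_cos_le {n p : ℕ} (c : Fin n → ℝ) : |∑ j, Real.cos (c j * Real.log p)| ≤ n := by
  have : |∑ j, Real.cos (c j * Real.log p)| ≤ ∑ j : Fin n, (1 : ℝ) :=
    (Finset.abs_sum_le_sum_abs _ _).trans (Finset.sum_le_sum fun j _ => Real.abs_cos_le_one _)
  simpa using this

/-- first order expansion of the local density -/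
theorem loc_exp (h : S_LOC) (n : ℕ) : ∃ C : ℝ, 0 < C ∧ ∀ p : ℕ, p.Prime → ∀ c : Fin n → ℝ,
    |loc c p - (1 + BB c p / p)| ≤ C / (p : ℝ) ^ 2 := by
  classical
  set M : ℝ := ∑' k : Fin n → ℤ, lc 2 k with hM
  have hs2 : Summable fun k : Fin n → ℤ => lc 2 k := (h n 2 Nat.prime_two 0).1
  have hM0 : 0 ≤ M := tsum_nonneg fun k => lc_nonneg (by norm_num) k
  refine ⟨24 * M + 12 * n + 2 * n ^ 2 + 1, by positivity, ?_⟩
  intro p hp c
  have hp2 : (2 : ℝ) ≤ p := by exact_mod_cast hp.two_le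
  have hp0 : (0 : ℝ) < p := by linarith
  have hpp : (1 : ℝ) ≤ (p : ℝ) ^ 2 := by nlinarith
  obtain ⟨hs, hl⟩ := h n p hp c
  set T : ℂ := ∑' k : Fin n → ℤ, (lc p k : ℂ) * ∏ j, cexp (-(I * ((c j * Real.log p * k j : ℝ) : ℂ))) with hT
  have hsum : HasSum (fun k : Fin n → ℤ => (lc p k : ℂ) * EE c p k) T := by
    have : Summable (fun k : Fin n → ℤ => (lc p k : ℂ) * EE c p k) := by
      refine Summable.of_norm ?_
      refine hs.congr fun k => ?_
      rw [norm_mul, EE_norm, mul_one, Complex.norm_real, Real.norm_of_nonneg (lc_nonneg hp.one_le k)]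
    exact this.hasSum
  have h1 : HasSum (fun k : Fin n → ℤ => if k ∈ SS4 n then (lc p k : ℂ) * EE c p k else 0)
      (∑ k ∈ SS4 n, (lc p k : ℂ) * EE c p k) := by
    have := hasSum_sum_of_ne_finset_zero (f := fun k : Fin n → ℤ =>
      if k ∈ SS4 n then (lc p k : ℂ) * EE c p k else 0) (s := SS4 n) (L := .unconditional _)
      (fun k hk => if_neg hk)
    have e : ∑ k ∈ SS4 n, (if k ∈ SS4 n then (lc p k : ℂ) * EE c p k else 0) =
        ∑ k ∈ SS4 n, (lc p k : ℂ) * EE c p k := Finset.sum_congr rfl fun k hk => if_pos hk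
    rw [e] at this
    exact this
  set W : ℝ := 1 + 4 / ((p : ℝ) + 1) * ∑ j, Real.cos (c j * Real.log p) +
      1 / (p : ℝ) * ∑ i, ∑ j ∈ Finset.Ioi i, 2 * Real.cos ((c i - c j) * Real.log p) with hW
  rw [fin_sum hp c, ← hW] at h1
  have h2 := hsum.sub h1
  have h3 : ‖T - (W : ℂ)‖ ≤ 12 * M / (p : ℝ) ^ 2 := by
    refine h2.norm_le_of_bounded (g := fun k : Fin n → ℤ => 12 * lc 2 k / (p : ℝ) ^ 2)
      ((hs2.hasSum.mul_left 12).div_const _) ?_
    intro k
    by_cases hk : k ∈ SS4 n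
    · simp only [hk, if_true, sub_self, norm_zero]
      have := lc_nonneg (by norm_num : 1 ≤ 2) k
      positivity
    · simp only [hk, if_false, sub_zero]
      rw [norm_mul, EE_norm, mul_one, Complex.norm_real, Real.norm_of_nonneg (lc_nonneg hp.one_le k)]
      exact lc_tail hp (not_mem hk)
  have h4 : |W - (1 + BB c p / p)| ≤ 4 * n / (p : ℝ) ^ 2 := by
    have e : W - (1 + BB c p / p) = -(4 / (p * ((p : ℝ) + 1)) * ∑ j, Real.cos (c j * Real.log p)) := by
      rw [hW]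
      unfold BB
      generalize ∑ j, Real.cos (c j * Real.log p) = s1
      generalize ∑ i, ∑ j ∈ Finset.Ioi i, 2 * Real.cos ((c i - c j) * Real.log p) = s2
      field_simp
      ring
    rw [e, abs_neg, abs_mul, abs_of_pos (by positivity)]
    have h5 : 4 / (p * ((p : ℝ) + 1)) ≤ 4 / (p : ℝ) ^ 2 := by
      apply div_le_div_of_nonneg_left (by norm_num) (by positivity)
      nlinarith
    calc 4 / (p * ((p : ℝ) + 1)) * |∑ j, Real.cos (c j * Real.log p)| ≤ 4 / (p : ℝ) ^ 2 * n := by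
          gcongr
          exact sum_cos_le c
      _ = _ := by ring
  have h6 : |W| ≤ 1 + 8 * n + 2 * n ^ 2 := by
    have h7 : |1 + BB c p / p| ≤ 1 + (4 * n + 2 * n ^ 2) := by
      refine (abs_add_le _ _).trans ?_
      rw [abs_one, abs_div, abs_of_pos hp0]
      have h8 := BB_abs c p
      have : |BB c p| / p ≤ |BB c p| := div_le_self (abs_nonneg _) (by linarith)
      linarith
    have h9 : 4 * (n : ℝ) / (p : ℝ) ^ 2 ≤ 4 * n := div_le_self (by positivity) hpp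
    have : |W| ≤ |W - (1 + BB c p / p)| + |1 + BB c p / p| := by
      have := abs_add_le (W - (1 + BB c p / p)) (1 + BB c p / p)
      simpa using this
    linarith
  have h10 : ‖T‖ ≤ 12 * M + (1 + 8 * n + 2 * n ^ 2) := by
    have : ‖T‖ ≤ ‖T - (W : ℂ)‖ + ‖(W : ℂ)‖ := by
      have := norm_add_le (T - (W : ℂ)) (W : ℂ)
      simpa using this
    rw [Complex.norm_real, Real.norm_eq_abs] at this
    have h11 : 12 * M / (p : ℝ) ^ 2 ≤ 12 * M := div_le_self (by positivity) hpp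
    linarith
  have e : ((loc c p - (1 + BB c p / p) : ℝ) : ℂ) = (T - (W : ℂ)) - T / (p : ℂ) ^ 2 +
      ((W - (1 + BB c p / p) : ℝ) : ℂ) := by
    push_cast at hl ⊢
    rw [hl]
    ring
  have e2 : |loc c p - (1 + BB c p / p)| = ‖((loc c p - (1 + BB c p / p) : ℝ) : ℂ)‖ := by
    rw [Complex.norm_real, Real.norm_eq_abs]
  rw [e2, e]
  refine (norm_add_le _ _).trans ?_
  rw [Complex.norm_real, Real.norm_eq_abs]
  have h12 : ‖T / (p : ℂ) ^ 2‖ ≤ (12 * M + (1 + 8 * n + 2 * n ^ 2)) / (p : ℝ) ^ 2 := by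
    rw [norm_div, norm_pow, Complex.norm_natCast]
    gcongr
  have h13 := norm_sub_le (T - (W : ℂ)) (T / (p : ℂ) ^ 2)
  have h14 : (24 * M + 12 * n + 2 * n ^ 2 + 1) / (p : ℝ) ^ 2 = 12 * M / (p : ℝ) ^ 2 +
      (12 * M + (1 + 8 * n + 2 * n ^ 2)) / (p : ℝ) ^ 2 + 4 * n / (p : ℝ) ^ 2 := by ring
  rw [h14]
  linarith

end

end Pool.Agent.Y81.SX.LocExp
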