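import Pool.Agent.Y969.SM.Stm2

set_option autoImplicit false

/-! Project SX (helper969): the main term (statement S_T0). -/

namespace Pool.Agent.Y81.SX.T0

open Finset Filter Topology MeasureTheory Complex
open Pool.Agent.Y969.GP (ff ht lam FR PX cr V mB PS)
open Pool.Agent.H306R2.SM (om cl Yf)
open Pool.Agent.H262R4.TM (Rng Ck)
open Pool.Agent.W184.NZ (mh w1)
open Pool.Agent.Y969.SM

noncomputable section

lemma mem_FR {X : ℕ} {p : ℕ × ℕ} : p ∈ FR X ↔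
    (1 ≤ p.1 ∧ p.1 ≤ X) ∧ (1 ≤ p.2 ∧ p.2 ≤ X) ∧ p.1 * p.2 ≤ X ∧ Nat.Coprime p.1 p.2 := by
  simp [FR, PS, and_assoc]

lemma ht_pos {p : ℕ × ℕ} (h1 : 1 ≤ p.1) (h2 : 1 ≤ p.2) : 0 < ht p := by
  have a : (0 : ℝ) < p.1 := by exact_mod_cast h1
  have b : (0 : ℝ) < p.2 := by exact_mod_cast h2
  unfold ht; positivity

lemma one_le_ht {p : ℕ × ℕ} (h1 : 1 ≤ p.1) (h2 : 1 ≤ p.2) : 1 ≤ ht p := by
  have a : (1 : ℝ) ≤ p.1 := by exact_mod_cast h1
  have b : (1 : ℝ) ≤ p.2 := by exact_mod_cast h2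
  unfold ht; nlinarith

lemma mh_eq (t : ℝ) (p : ℕ × ℕ) (h1 : 1 ≤ p.1) (h2 : 1 ≤ p.2) :
    mh t p = (((√(ht p))⁻¹ : ℝ) : ℂ) * cexp (I * ((t * lam p : ℝ) : ℂ)) := by
  have a : (0 : ℝ) < p.1 := by exact_mod_cast h1
  have b : (0 : ℝ) < p.2 := by exact_mod_cast h2
  have a' : (p.1 : ℂ) ≠ 0 := by exact_mod_cast a.ne'
  have b' : (p.2 : ℂ) ≠ 0 := by exact_mod_cast b.ne'
  have e1 : ((√(ht p))⁻¹ : ℝ) = Real.exp (-(1 / 2) * (Real.log p.1 + Real.log p.2)) := by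
    rw [← Real.log_mul a.ne' b.ne', Real.sqrt_eq_rpow, ← Real.rpow_neg (ht_pos h1 h2).le,
      Real.rpow_def_of_pos (ht_pos h1 h2)]
    unfold ht
    ring_nf
  have e0 : mh t p = (p.1 : ℂ) ^ (-(1 / 2 + t * Complex.I)) * (p.2 : ℂ) ^ (-(1 / 2 - t * Complex.I)) := rfl
  rw [e0, e1, Complex.cpow_def_of_ne_zero a', Complex.cpow_def_of_ne_zero b', ← Complex.natCast_log,
    ← Complex.natCast_log, Complex.ofReal_exp, ← Complex.exp_add, ← Complex.exp_add]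
  congr 1
  unfold lam
  push_cast
  ring

lemma mh_cont (x : ℕ × ℕ) (h1 : 1 ≤ x.1) (h2 : 1 ≤ x.2) : Continuous fun t : ℝ => mh t x := by
  have : (fun t : ℝ => mh t x) = fun t => (((√(ht x))⁻¹ : ℝ) : ℂ) * cexp (I * ((t * lam x : ℝ) : ℂ)) := by
    funext t; exact mh_eq t x h1 h2
  rw [this]
  fun_prop

lemma mh_norm (t : ℝ) (x : ℕ × ℕ) (h1 : 1 ≤ x.1) (h2 : 1 ≤ x.2) : ‖mh t x‖ ≤ 1 := by
  rw [mh_eq t x h1 h2, norm_mul, mul_comm I, Complex.norm_exp_ofReal_mul_I, mul_one,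
    Complex.norm_real, Real.norm_of_nonneg (by positivity)]
  apply inv_le_one_of_one_le₀
  rw [Real.one_le_sqrt]
  exact one_le_ht h1 h2

/-- the pair of the products -/
def HL {n : ℕ} (q : Fin n → ℕ × ℕ) : ℕ × ℕ := (∏ j, (q j).1, ∏ j, (q j).2)

lemma mh_HL {n : ℕ} (t : ℝ) (q : Fin n → ℕ × ℕ) : mh t (HL q) = ∏ j, mh t (q j) := by
  rw [← map_prod]
  congr 1
  ext
  · simp [HL, Prod.fst_prod]
  · simp [HL, Prod.snd_prod]

lemma HL_fst {n : ℕ} {q : Fin n → ℕ × ℕ} (h : ∀ j, 1 ≤ (q j).1) : 1 ≤ (HL q).1 := by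
  have : 0 < ∏ j, (q j).1 := Finset.prod_pos fun j _ => h j
  exact this

lemma HL_snd {n : ℕ} {q : Fin n → ℕ × ℕ} (h : ∀ j, 1 ≤ (q j).2) : 1 ≤ (HL q).2 := by
  have : 0 < ∏ j, (q j).2 := Finset.prod_pos fun j _ => h j
  exact this

lemma om_nonneg {κ : ℕ} {T t : ℝ} (hT : 0 < T) (ht : 0 < t) : 0 ≤ om κ (κ / T) t := by
  unfold om
  positivity

lemma om_cont (κ : ℕ) (δ : ℝ) : Continuous (om κ δ) := by
  unfold om
  fun_prop

lemma integ_F {k : ℕ} {T : ℝ} {κ : ℕ} (hT : 0 < T) (hc : Continuous (F0 k T))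
    (hi : IntegrableOn (fun t => om κ (κ / T) t * |F0 k T t|) (Set.Ioi 0)) (x : ℕ × ℕ)
    (hx1 : 1 ≤ x.1) (hx2 : 1 ≤ x.2) :
    IntegrableOn (fun t => ((om κ (κ / T) t * F0 k T t : ℝ) : ℂ) * mh t x) (Set.Ioi 0) := by
  refine Integrable.mono' hi ?_ ?_
  · have h1 := om_cont κ (κ / T)
    have h2 := mh_cont x hx1 hx2
    exact Continuous.aestronglyMeasurable (by fun_prop)
  · refine (ae_restrict_iff' measurableSet_Ioi).2 (Eventually.of_forall fun t htt => ?_)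
    have h0 : 0 ≤ om κ (κ / T) t := om_nonneg hT htt
    rw [norm_mul, Complex.norm_real, Real.norm_eq_abs, abs_mul, abs_of_nonneg h0]
    have := mh_norm t x hx1 hx2
    have h3 : 0 ≤ om κ (κ / T) t * |F0 k T t| := by positivity
    nlinarith [norm_nonneg (mh t x)]

lemma integ_X {T : ℝ} {κ : ℕ}
    (hi : IntegrableOn (fun t => om κ (κ / T) t * Xz t ^ 4) (Set.Ioi 0)) (x : ℕ × ℕ)
    (hx1 : 1 ≤ x.1) (hx2 : 1 ≤ x.2) :
    IntegrableOn (fun t => ((om κ (κ / T) t * Xz t ^ 4 : ℝ) : ℂ) * mh t x) (Set.Ioi 0) := by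
  have h1 : Integrable (fun t => ((om κ (κ / T) t * Xz t ^ 4 : ℝ) : ℂ)) (volume.restrict (Set.Ioi 0)) :=
    hi.ofReal
  refine Integrable.mono' h1.norm ?_ ?_
  · exact h1.aestronglyMeasurable.mul (mh_cont x hx1 hx2).aestronglyMeasurable
  · refine Eventually.of_forall fun t => ?_
    rw [norm_mul]
    have := mh_norm t x hx1 hx2
    nlinarith [norm_nonneg (mh t x), norm_nonneg ((om κ (κ / T) t * Xz t ^ 4 : ℝ) : ℂ)]

lemma diff_le {k : ℕ} {T : ℝ} {κ : ℕ} (hT : 0 < T) (hc : Continuous (F0 k T))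
    (h0 : IntegrableOn (fun t => om κ (κ / T) t * |Xz t ^ 4 - F0 k T t|) (Set.Ioi 0))
    (hi : IntegrableOn (fun t => om κ (κ / T) t * |F0 k T t|) (Set.Ioi 0))
    (hj : IntegrableOn (fun t => om κ (κ / T) t * Xz t ^ 4) (Set.Ioi 0)) (x : ℕ × ℕ)
    (hx1 : 1 ≤ x.1) (hx2 : 1 ≤ x.2) :
    ‖(∫ t in Set.Ioi (0:ℝ), ((om κ (κ / T) t * F0 k T t : ℝ) : ℂ) * mh t x) -
      ∫ t in Set.Ioi (0:ℝ), ((om κ (κ / T) t * Xz t ^ 4 : ℝ) : ℂ) * mh t x‖ ≤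
    ∫ t in Set.Ioi (0:ℝ), om κ (κ / T) t * |Xz t ^ 4 - F0 k T t| := by
  rw [← integral_sub (integ_F hT hc hi x hx1 hx2) (integ_X hj x hx1 hx2)]
  refine norm_integral_le_of_norm_le h0 ?_
  refine (ae_restrict_iff' measurableSet_Ioi).2 (Eventually.of_forall fun t htt => ?_)
  have h0 : 0 ≤ om κ (κ / T) t := om_nonneg hT htt
  have e : ((om κ (κ / T) t * F0 k T t : ℝ) : ℂ) * mh t x - ((om κ (κ / T) t * Xz t ^ 4 : ℝ) : ℂ) * mh t x
      = ((om κ (κ / T) t * (F0 k T t - Xz t ^ 4) : ℝ) : ℂ) * mh t x := by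
    push_cast; ring
  rw [e, norm_mul, Complex.norm_real, Real.norm_eq_abs, abs_mul, abs_of_nonneg h0, abs_sub_comm]
  have := mh_norm t x hx1 hx2
  have h3 : 0 ≤ om κ (κ / T) t * |Xz t ^ 4 - F0 k T t| := by positivity
  nlinarith [norm_nonneg (mh t x)]

/-- the coefficients -/
def vq (k κ : ℕ) (T : ℝ) {n : ℕ} (q : Fin n → ℕ × ℕ) : ℂ :=
  ∫ t in Set.Ioi (0:ℝ), ((om κ (κ / T) t * F0 k T t : ℝ) : ℂ) * mh t (HL q)

lemma TA_eq {k : ℕ} {T : ℝ} {κ n Z : ℕ} (hT : 0 < T) (hc : Continuous (F0 k T))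
    (hi : IntegrableOn (fun t => om κ (κ / T) t * |F0 k T t|) (Set.Ioi 0)) (c : Fin n → ℝ) :
    TA k Z (fun _ : Fin n => 0) κ T c = ∑ q ∈ Fintype.piFinset (fun _ : Fin n => FR Z),
      vq k κ T q * ∏ j, cexp (I * ((c j * lam (q j) : ℝ) : ℂ)) := by
  unfold TA vq
  simp_rw [← integral_mul_const]
  rw [← integral_finsetSum]
  · refine setIntegral_congr_fun measurableSet_Ioi fun t htt => ?_
    have e1 : ∑ j : Fin n, ke ((fun _ : Fin n => (0 : Fin (n + 2))) j) = 0 := by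
      simp [ke]
    have e1' : ∑ j : Fin n, ke (n := n) 0 = 0 := e1
    rw [e1', pow_zero, one_mul]
    simp_rw [mul_assoc]
    rw [← Finset.mul_sum]
    congr 1
    unfold KK
    rw [Finset.prod_univ_sum]
    refine Finset.sum_congr rfl fun q hq => ?_
    rw [mh_HL, ← Finset.prod_mul_distrib]
    refine Finset.prod_congr rfl fun j _ => ?_
    have hq' := mem_FR.1 (Fintype.mem_piFinset.1 hq j)
    rw [mh_eq t (q j) hq'.1.1 hq'.2.1.1]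
    have e2 : kc (n := n) 0 (q j) = (√(ht (q j)))⁻¹ := by
      unfold kc
      rw [if_neg]
      intro h
      have := congrArg Fin.val h
      simp at this
    rw [e2, mul_assoc, ← Complex.exp_add]
    congr 2
    push_cast
    ring
  · intro q hq
    have hq' := fun j => mem_FR.1 (Fintype.mem_piFinset.1 hq j)
    exact (integ_F hT hc hi (HL q) (HL_fst fun j => (hq' j).1.1) (HL_snd fun j => (hq' j).2.1.1)).mul_const _

/-- the low tuples -/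
def LY (n Y : ℕ) : Finset (Fin n → ℕ × ℕ) :=
  (Fintype.piFinset fun _ : Fin n => FR Y).filter (fun q => ∏ j, ht (q j) ≤ Y)

lemma prod_ht {n : ℕ} (q : Fin n → ℕ × ℕ) : ∏ j, ht (q j) = ((HL q).1 : ℝ) * (HL q).2 := by
  unfold ht HL
  rw [Finset.prod_mul_distrib]
  push_cast
  rfl

lemma LY_eq {n Y Z : ℕ} (h : Y ≤ Z) :
    (Fintype.piFinset fun _ : Fin n => FR Z).filter (fun q => ∏ j, ht (q j) ≤ Y) = LY n Y := by
  unfold LY
  ext q
  simp only [Finset.mem_filter, Fintype.mem_piFinset, mem_FR]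
  constructor
  · rintro ⟨h1, h2⟩
    refine ⟨fun j => ?_, h2⟩
    obtain ⟨⟨a1, a2⟩, ⟨b1, b2⟩, c1, d1⟩ := h1 j
    have h3 : ht (q j) ≤ Y := by
      refine le_trans ?_ h2
      have h5 : ∏ i, (if i = j then ht (q j) else 1) ≤ ∏ i, ht (q i) := by
        refine Finset.prod_le_prod (fun i _ => ?_) (fun i _ => ?_)
        · split_ifs
          · exact (ht_pos a1 b1).le
          · norm_num
        · split_ifs with hij
          · rw [hij]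
          · exact one_le_ht (h1 i).1.1 (h1 i).2.1.1
      rw [Finset.prod_ite_eq' Finset.univ j] at h5
      simpa using h5
    have h4 : (q j).1 * (q j).2 ≤ Y := by
      unfold ht at h3
      exact_mod_cast h3
    exact ⟨⟨a1, by nlinarith⟩, ⟨b1, by nlinarith⟩, h4, d1⟩
  · rintro ⟨h1, h2⟩
    refine ⟨fun j => ?_, h2⟩
    obtain ⟨⟨a1, a2⟩, ⟨b1, b2⟩, c1, d1⟩ := h1 j
    exact ⟨⟨a1, by omega⟩, ⟨b1, by omega⟩, by omega, d1⟩

/-- the coefficients of the difference -/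
def aq (k κ Y : ℕ) (T : ℝ) {n : ℕ} (q : Fin n → ℕ × ℕ) : ℂ :=
  vq k κ T q - if ∏ j, ht (q j) ≤ Y then ((w2 (HL q) / (2 * Real.pi ^ 2) * Real.log T ^ 4 : ℝ) : ℂ) else 0

lemma diff_eq {k : ℕ} {T : ℝ} {κ n Z Y : ℕ} (hT : 0 < T) (hc : Continuous (F0 k T)) (hYZ : Y ≤ Z)
    (hi : IntegrableOn (fun t => om κ (κ / T) t * |F0 k T t|) (Set.Ioi 0)) (c : Fin n → ℝ) :
    TA k Z (fun _ : Fin n => 0) κ T c -
      ((Real.log T ^ 4 / (2 * Real.pi ^ 2) : ℝ) : ℂ) * BY n Y c =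
    ∑ q ∈ Fintype.piFinset (fun _ : Fin n => FR Z),
      aq k κ Y T q * ∏ j, cexp (I * ((c j * lam (q j) : ℝ) : ℂ)) := by
  rw [TA_eq hT hc hi]
  have e : BY n Y c = ∑ q ∈ LY n Y, (w2 (HL q) : ℂ) * ∏ j, cexp (I * ((c j * lam (q j) : ℝ) : ℂ)) := rfl
  rw [e, ← LY_eq hYZ, Finset.sum_filter, Finset.mul_sum, ← Finset.sum_sub_distrib]
  refine Finset.sum_congr rfl fun q _ => ?_
  unfold aq
  split_ifs with h
  · push_cast; ring
  · simp

lemma high {C L δ P g v Y : ℝ} (hC : 0 < C) (hL : 0 ≤ L) (hP : Y < P) (hY : 1 ≤ Y)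
    (hg : 0 ≤ g) (hv0 : 0 ≤ v) (hv : v ≤ C * (L * (P ^ (1 / 16 : ℝ) * g / P) + δ)) :
    v ^ 2 ≤ 2 * C ^ 2 * L ^ 2 * Y ^ (-(1 / 8) : ℝ) * (P ^ (-2 + 1 / 4 : ℝ) * g ^ 2) + 2 * C ^ 2 * δ ^ 2 := by
  have hP0 : 0 < P := by linarith
  set a := L * (P ^ (1 / 16 : ℝ) * g / P) with ha
  have ha0 : 0 ≤ a := by positivity
  have e1 : v ^ 2 ≤ 2 * C ^ 2 * a ^ 2 + 2 * C ^ 2 * δ ^ 2 := by
    have e2 : v ^ 2 ≤ (C * (a + δ)) ^ 2 := pow_le_pow_left₀ hv0 hv 2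
    nlinarith [sq_nonneg (C * (a - δ))]
  have e3 : a ^ 2 = L ^ 2 * (P ^ (-(1 / 8) : ℝ) * P ^ (-2 + 1 / 4 : ℝ)) * g ^ 2 := by
    rw [ha]
    have e4 : P ^ (-(1 / 8) : ℝ) * P ^ (-2 + 1 / 4 : ℝ) = (P ^ (1 / 16 : ℝ) / P) ^ 2 := by
      rw [← Real.rpow_add hP0, div_pow, ← Real.rpow_natCast (P ^ (1 / 16 : ℝ)) 2, ← Real.rpow_mul hP0.le,
        ← Real.rpow_natCast P 2, ← Real.rpow_sub hP0]
      norm_num
    rw [e4]
    ring
  have e5 : P ^ (-(1 / 8) : ℝ) ≤ Y ^ (-(1 / 8) : ℝ) :=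
    Real.rpow_le_rpow_of_nonpos (by linarith) hP.le (by norm_num)
  have e6 : 0 ≤ L ^ 2 * P ^ (-2 + 1 / 4 : ℝ) * g ^ 2 := by positivity
  have e7 : a ^ 2 ≤ L ^ 2 * Y ^ (-(1 / 8) : ℝ) * (P ^ (-2 + 1 / 4 : ℝ) * g ^ 2) := by
    rw [e3]
    nlinarith
  have hC2 : 0 ≤ 2 * C ^ 2 := by positivity
  nlinarith

lemma card_FR (Z : ℕ) : (FR Z).card ≤ Z ^ 2 := by
  unfold FR PS
  refine (Finset.card_filter_le _ _).trans ((Finset.card_filter_le _ _).trans ?_)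
  rw [Finset.card_product, Nat.card_Icc]
  simp [sq]

lemma card_S (n Z : ℕ) : (Fintype.piFinset (fun _ : Fin n => FR Z)).card ≤ (Z ^ 2) ^ n := by
  rw [Fintype.card_piFinset_const]
  exact Nat.pow_le_pow_left (card_FR Z) n

lemma HL_le {n Z : ℕ} {q : Fin n → ℕ × ℕ} (h : ∀ j, (q j).1 ≤ Z ∧ (q j).2 ≤ Z) :
    (HL q).1 ≤ Z ^ n ∧ (HL q).2 ≤ Z ^ n := by
  constructor
  · unfold HL
    simpa using Finset.prod_le_pow_card (Finset.univ : Finset (Fin n)) (fun j => (q j).1) Z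
      (fun j _ => (h j).1)
  · unfold HL
    simpa using Finset.prod_le_pow_card (Finset.univ : Finset (Fin n)) (fun j => (q j).2) Z
      (fun j _ => (h j).2)

theorem t_T0 (k : ℕ) (h1 : S_UB k) (h2 : S_AS) (h3 : S_FA k) (h4 : S_ORT) (h5 : S_ARI) (h6 : S_W2B)
    (h7 : S_FB k) : S_T0 k := by
  obtain ⟨η1, η2, hη1, hη2, hUB⟩ := h1
  obtain ⟨C, hC, hUB'⟩ := hUB 0 (1 / 16) (by norm_num)
  obtain ⟨C3, hC3, hFA⟩ := h3
  intro n A hA
  obtain ⟨C2, hC2, hARI⟩ := h5 n (1 / 4) (by norm_num)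
  have hn : (0 : ℝ) < (n : ℝ) + 1 := by positivity
  refine ⟨min (min η1 η2) (1 / 4) / (n + 1), by positivity, ?_⟩
  intro σ hσ hσ1 ε hε
  have hσ2 : (n + 1) * σ ≤ min (min η1 η2) (1 / 4) := by
    rw [le_div_iff₀ hn] at hσ1; linarith
  have hσ3 : (n + 1) * σ ≤ η1 := hσ2.trans ((min_le_left _ _).trans (min_le_left _ _))
  have hσ4 : (n + 1) * σ ≤ η2 := hσ2.trans ((min_le_left _ _).trans (min_le_right _ _))
  have hσ5 : (n + 1) * σ ≤ 1 / 4 := hσ2.trans (min_le_right _ _)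
  have hY : ∀ᶠ Y : ℕ in atTop, 2 * C ^ 2 * C2 * (Y : ℝ) ^ (-(1 / 8) : ℝ) ≤ ε / 8 ∧ 1 ≤ Y := by
    have l1 : Tendsto (fun Y : ℕ => 2 * C ^ 2 * C2 * (Y : ℝ) ^ (-(1 / 8) : ℝ)) atTop (𝓝 (2 * C ^ 2 * C2 * 0)) :=
      ((tendsto_rpow_neg_atTop (by norm_num : (0 : ℝ) < 1 / 8)).comp tendsto_natCast_atTop_atTop).const_mul _
    rw [mul_zero] at l1
    exact (l1.eventually (ge_mem_nhds (by positivity))).and (eventually_ge_atTop 1)
  obtain ⟨Y₀, hY₀⟩ := eventually_atTop.1 hY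
  refine ⟨Y₀, fun Y hYY => ?_⟩
  obtain ⟨hY1, hY2⟩ := hY₀ Y hYY
  obtain ⟨δ0, hδ0, hδ1, hδ2⟩ : ∃ δ0 : ℝ, 0 < δ0 ∧ δ0 ≤ 1 ∧ ((LY n Y).card : ℝ) * (4 * δ0) ≤ ε / 8 := by
    refine ⟨min 1 (ε / (32 * ((LY n Y).card + 1))), by positivity, min_le_left _ _, ?_⟩
    have : min 1 (ε / (32 * (((LY n Y).card : ℝ) + 1))) ≤ ε / (32 * ((LY n Y).card + 1)) := min_le_right _ _
    calc ((LY n Y).card : ℝ) * (4 * min 1 (ε / (32 * ((LY n Y).card + 1))))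
        ≤ ((LY n Y).card + 1 : ℝ) * (4 * (ε / (32 * ((LY n Y).card + 1)))) := by
          gcongr
          linarith
      _ = ε / 8 := by field_simp; ring
  have hAS : ∀ᶠ T : ℝ in atTop, ∀ q ∈ LY n Y, ∀ κ : ℕ, Rng T κ →
      ‖(∫ t in Set.Ioi (0:ℝ), ((om κ (κ / T) t * Xz t ^ 4 : ℝ) : ℂ) * mh t (HL q)) -
        ((w2 (HL q) / (2 * Real.pi ^ 2) * Real.log T ^ 4 : ℝ) : ℂ)‖ ≤ δ0 * Real.log T ^ 4 := by
    rw [Filter.eventually_all_finset]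
    intro q hq
    have hq' := fun j => mem_FR.1 (Fintype.mem_piFinset.1 (Finset.mem_filter.1 hq).1 j)
    exact h2 (HL q) (by have := HL_fst fun j => (hq' j).1.1; omega)
      (by have := HL_snd fun j => (hq' j).2.1.1; omega) δ0 hδ0
  have hlog : Tendsto Real.log atTop atTop := Real.tendsto_log_atTop
  filter_upwards [hUB', hFA, h7, hAS, eventually_ge_atTop 16,
    (tendsto_rpow_atTop hσ).eventually_ge_atTop ((Y : ℝ) + 1),
    hlog.eventually_ge_atTop (C3 / δ0), hlog.eventually_ge_atTop (2 * C ^ 2 / (ε / 8) + 1)]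
    with T gUB gFA gFB gAS gT gY gl1 gl2
  intro κ hκ hκ3 U Z hU1 hU2 hZ
  have hT0 : (0 : ℝ) < T := by linarith
  have hT1 : (1 : ℝ) ≤ T := by linarith
  have hL1 : 1 ≤ Real.log T := by
    have : 0 < 2 * C ^ 2 / (ε / 8) := by positivity
    linarith
  obtain ⟨f0, f1, f2, f3, f4, f5⟩ := gFA κ hκ
  have hZT : (Z : ℝ) ≤ T ^ σ := by rw [hZ]; exact Nat.floor_le (by positivity)
  have hYZ : Y ≤ Z := by
    rw [hZ]
    apply Nat.le_floor
    linarith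
  have hZ1 : 1 ≤ Z := hY2.trans hYZ
  simp_rw [diff_eq hT0 gFB.1 hYZ f1]
  have hnp : ∀ m : ℕ, (Z : ℝ) ^ m ≤ T ^ ((m : ℝ) * σ) := by
    intro m
    calc (Z : ℝ) ^ m ≤ (T ^ σ) ^ m := by gcongr
      _ = T ^ ((m : ℝ) * σ) := by rw [← Real.rpow_natCast, ← Real.rpow_mul hT0.le, mul_comm]
  have hU0 : 0 ≤ U := by linarith
  have hORT := h4 n Z U (aq k κ Y T) hZ1 (by
    have e1 := hnp (2 * n + 1)
    have e2 : T ^ (((2 * n + 1 : ℕ) : ℝ) * σ) ≤ T ^ (1 / 2 : ℝ) := by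
      apply Real.rpow_le_rpow_of_exponent_le hT1
      push_cast
      nlinarith
    have e3 : 4 * T ^ (1 / 2 : ℝ) ≤ T := by
      rw [← Real.sqrt_eq_rpow]
      have e4 : 4 ≤ √T := by
        rw [Real.le_sqrt' (by norm_num)]; linarith
      nlinarith [Real.mul_self_sqrt hT0.le]
    linarith)
  refine hORT.trans ?_
  have hUn : 0 ≤ U ^ n := by positivity
  suffices h : ∑ q ∈ Fintype.piFinset (fun _ : Fin n => FR Z), ‖aq k κ Y T q‖ ^ 2 ≤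
      3 * (ε / 8) * Real.log T ^ 8 by
    have h8 : 0 ≤ ε * Real.log T ^ 8 := by positivity
    calc 2 * U ^ n * ∑ q ∈ Fintype.piFinset (fun _ : Fin n => FR Z), ‖aq k κ Y T q‖ ^ 2
        ≤ 2 * U ^ n * (3 * (ε / 8) * Real.log T ^ 8) := by gcongr
      _ ≤ ε * (U ^ n * Real.log T ^ 8) := by nlinarith
  rw [← Finset.sum_filter_add_sum_filter_not _ (fun q => ∏ j, ht (q j) ≤ Y), LY_eq hYZ]
  have low : ∑ q ∈ LY n Y, ‖aq k κ Y T q‖ ^ 2 ≤ (ε / 8) * Real.log T ^ 8 := by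
    have e1 : ∀ q ∈ LY n Y, ‖aq k κ Y T q‖ ^ 2 ≤ 4 * δ0 * Real.log T ^ 8 := by
      intro q hq
      have hq1 := (Finset.mem_filter.1 hq).2
      have hq' := fun j => mem_FR.1 (Fintype.mem_piFinset.1 (Finset.mem_filter.1 hq).1 j)
      have e2 := gAS q hq κ hκ
      have e3 := (diff_le hT0 gFB.1 f0 f1 f2 (HL q) (HL_fst fun j => (hq' j).1.1)
        (HL_snd fun j => (hq' j).2.1.1)).trans f3
      have e4 : C3 * Real.log T ^ 3 ≤ δ0 * Real.log T ^ 4 := by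
        have : C3 ≤ δ0 * Real.log T := by
          rw [div_le_iff₀ hδ0] at gl1; linarith
        calc C3 * Real.log T ^ 3 ≤ (δ0 * Real.log T) * Real.log T ^ 3 := by gcongr
          _ = _ := by ring
      have e5 : ‖aq k κ Y T q‖ ≤ 2 * δ0 * Real.log T ^ 4 := by
        unfold aq vq
        rw [if_pos hq1]
        calc _ ≤ _ + _ := norm_sub_le_norm_sub_add_norm_sub _
              (∫ t in Set.Ioi (0:ℝ), ((om κ (κ / T) t * Xz t ^ 4 : ℝ) : ℂ) * mh t (HL q)) _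
          _ ≤ δ0 * Real.log T ^ 4 + δ0 * Real.log T ^ 4 := add_le_add (e3.trans e4) e2
          _ = _ := by ring
      calc ‖aq k κ Y T q‖ ^ 2 ≤ (2 * δ0 * Real.log T ^ 4) ^ 2 := by gcongr
        _ = 4 * (δ0 * δ0) * Real.log T ^ 8 := by ring
        _ ≤ 4 * (δ0 * 1) * Real.log T ^ 8 := by gcongr
        _ = _ := by ring
    calc ∑ q ∈ LY n Y, ‖aq k κ Y T q‖ ^ 2 ≤ ∑ q ∈ LY n Y, 4 * δ0 * Real.log T ^ 8 := Finset.sum_le_sum e1
      _ = (((LY n Y).card : ℝ) * (4 * δ0)) * Real.log T ^ 8 := by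
        rw [Finset.sum_const, nsmul_eq_mul]; ring
      _ ≤ _ := by gcongr
  have hi : ∑ q ∈ (Fintype.piFinset (fun _ : Fin n => FR Z)).filter (fun q => ¬ ∏ j, ht (q j) ≤ Y),
      ‖aq k κ Y T q‖ ^ 2 ≤ 2 * (ε / 8) * Real.log T ^ 8 := by
    have e1 : ∀ q ∈ (Fintype.piFinset (fun _ : Fin n => FR Z)).filter (fun q => ¬ ∏ j, ht (q j) ≤ Y),
        ‖aq k κ Y T q‖ ^ 2 ≤ 2 * C ^ 2 * (Real.log T ^ 4) ^ 2 * (Y : ℝ) ^ (-(1 / 8) : ℝ) *
          ((∏ j, ht (q j)) ^ (-2 + 1 / 4 : ℝ) * (Nat.gcd (∏ j, (q j).1) (∏ j, (q j).2) : ℝ) ^ 2) +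
          2 * C ^ 2 * (T ^ (-η2)) ^ 2 := by
      intro q hq
      have hq1 := (Finset.mem_filter.1 hq).2
      have hq' := fun j => mem_FR.1 (Fintype.mem_piFinset.1 (Finset.mem_filter.1 hq).1 j)
      have hle := HL_le (Z := Z) (q := q) fun j => ⟨(hq' j).1.2, (hq' j).2.1.2⟩
      have hZη : ((Z ^ n : ℕ) : ℝ) ≤ T ^ η1 := by
        push_cast
        refine (hnp n).trans (Real.rpow_le_rpow_of_exponent_le hT1 ?_)
        nlinarith
      have u := gUB κ hκ hκ3 (HL q).1 (HL q).2 (HL_fst fun j => (hq' j).1.1)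
        (HL_snd fun j => (hq' j).2.1.1) ((Nat.cast_le.2 hle.1).trans hZη)
        ((Nat.cast_le.2 hle.2).trans hZη)
      have e2 : aq k κ Y T q = vq k κ T q := by
        unfold aq
        rw [if_neg hq1, sub_zero]
      rw [e2]
      refine high hC (by positivity) (not_le.1 hq1) (by exact_mod_cast hY2)
        (by positivity) (norm_nonneg _) ?_
      rw [prod_ht]
      simp only [pow_zero, one_mul, Nat.cast_mul] at u
      exact u
    refine (Finset.sum_le_sum e1).trans ?_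
    rw [Finset.sum_add_distrib, ← Finset.mul_sum]
    have e2 : ∑ q ∈ (Fintype.piFinset (fun _ : Fin n => FR Z)).filter (fun q => ¬ ∏ j, ht (q j) ≤ Y),
        ((∏ j, ht (q j)) ^ (-2 + 1 / 4 : ℝ) * (Nat.gcd (∏ j, (q j).1) (∏ j, (q j).2) : ℝ) ^ 2) ≤ C2 := by
      refine le_trans (Finset.sum_le_sum_of_subset_of_nonneg (Finset.filter_subset _ _) ?_) (hARI Z)
      intro q hq _
      have hq' := fun j => mem_FR.1 (Fintype.mem_piFinset.1 hq j)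
      have : 0 ≤ ∏ j, ht (q j) := Finset.prod_nonneg fun j _ => (ht_pos (hq' j).1.1 (hq' j).2.1.1).le
      positivity
    have e3 : ∑ q ∈ (Fintype.piFinset (fun _ : Fin n => FR Z)).filter (fun q => ¬ ∏ j, ht (q j) ≤ Y),
        2 * C ^ 2 * (T ^ (-η2)) ^ 2 ≤ 2 * C ^ 2 := by
      rw [Finset.sum_const, nsmul_eq_mul]
      have e4 : ((((Fintype.piFinset (fun _ : Fin n => FR Z)).filter
          (fun q => ¬ ∏ j, ht (q j) ≤ Y)).card : ℕ) : ℝ) ≤ T ^ (2 * η2) := by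
        have e5 : ((Fintype.piFinset (fun _ : Fin n => FR Z)).filter
          (fun q => ¬ ∏ j, ht (q j) ≤ Y)).card ≤ (Z ^ 2) ^ n :=
          (Finset.card_filter_le _ _).trans (card_S n Z)
        calc ((((Fintype.piFinset (fun _ : Fin n => FR Z)).filter
          (fun q => ¬ ∏ j, ht (q j) ≤ Y)).card : ℕ) : ℝ) ≤ (((Z ^ 2) ^ n : ℕ) : ℝ) := by exact_mod_cast e5
          _ = (Z : ℝ) ^ (2 * n) := by push_cast; rw [pow_mul]
          _ ≤ T ^ (((2 * n : ℕ) : ℝ) * σ) := hnp (2 * n)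
          _ ≤ T ^ (2 * η2) := by
            apply Real.rpow_le_rpow_of_exponent_le hT1
            push_cast
            nlinarith
      have e6 : T ^ (2 * η2) * (T ^ (-η2)) ^ 2 = 1 := by
        rw [← Real.rpow_natCast (T ^ (-η2)) 2, ← Real.rpow_mul hT0.le, ← Real.rpow_add hT0]
        rw [show 2 * η2 + -η2 * ((2 : ℕ) : ℝ) = 0 by push_cast; ring, Real.rpow_zero]
      calc _ ≤ T ^ (2 * η2) * (2 * C ^ 2 * (T ^ (-η2)) ^ 2) := by gcongr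
        _ = 2 * C ^ 2 * (T ^ (2 * η2) * (T ^ (-η2)) ^ 2) := by ring
        _ = 2 * C ^ 2 := by rw [e6, mul_one]
    have e7 : 2 * C ^ 2 ≤ ε / 8 * Real.log T ^ 8 := by
      have g1 : 2 * C ^ 2 ≤ ε / 8 * Real.log T := by
        have g2 : 2 * C ^ 2 / (ε / 8) ≤ Real.log T := by linarith
        rw [div_le_iff₀ (by positivity)] at g2
        linarith
      have g3 : Real.log T ≤ Real.log T ^ 8 := by
        calc Real.log T = Real.log T ^ 1 := (pow_one _).symm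
          _ ≤ Real.log T ^ 8 := pow_le_pow_right₀ hL1 (by norm_num)
      calc 2 * C ^ 2 ≤ ε / 8 * Real.log T := g1
        _ ≤ _ := by gcongr
    have e8 : 2 * C ^ 2 * (Real.log T ^ 4) ^ 2 * (Y : ℝ) ^ (-(1 / 8) : ℝ) *
        ∑ q ∈ (Fintype.piFinset (fun _ : Fin n => FR Z)).filter (fun q => ¬ ∏ j, ht (q j) ≤ Y),
        ((∏ j, ht (q j)) ^ (-2 + 1 / 4 : ℝ) * (Nat.gcd (∏ j, (q j).1) (∏ j, (q j).2) : ℝ) ^ 2) ≤
        ε / 8 * Real.log T ^ 8 := by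
      calc _ ≤ 2 * C ^ 2 * (Real.log T ^ 4) ^ 2 * (Y : ℝ) ^ (-(1 / 8) : ℝ) * C2 := by gcongr
        _ = (2 * C ^ 2 * C2 * (Y : ℝ) ^ (-(1 / 8) : ℝ)) * Real.log T ^ 8 := by ring
        _ ≤ _ := by gcongr
    linarith
  linarith

end

end Pool.Agent.Y81.SX.T0
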